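import Pool.Agent.Y980.ID.Prelim
import Pool.Agent.Y980.Tail

/-!
# The amplitude
-/

set_option autoImplicit false

namespace Pool.Agent.Y980.ID

open MeasureTheory ProbabilityTheory Filter Topology Real
open scoped ENNReal

variable {Ω : Type*} [MeasurableSpace Ω] {P : Measure Ω}

theorem isGaussianProcess_add_const {T : Type*} {X : T → Ω → ℝ} (hg : IsGaussianProcess X P)
    (c : T → ℝ) : IsGaussianProcess (fun t w => X t w + c t) P := by
  refine ⟨fun I => ⟨?_⟩⟩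
  have h1 := (hg.hasGaussianLaw I).isGaussian_map
  have hm : AEMeasurable (fun w => I.restrict (fun t => X t w)) P :=
    (hg.hasGaussianLaw I).aemeasurable
  have h2 : P.map (fun w => I.restrict (fun t => X t w + c t)) =
      (P.map (fun w => I.restrict (fun t => X t w))).map (fun x => x + I.restrict c) := by
    rw [AEMeasurable.map_map_of_aemeasurable (by fun_prop) hm]
    rfl
  rw [h2]
  infer_instance

/-- the probability that a standard normal variable exceeds 9 -/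
noncomputable def q9 : ℝ := (gaussianReal 0 1 (Set.Ici 9)).toReal

theorem q9_pos : 0 < q9 := by
  apply ENNReal.toReal_pos
  · intro h3
    have h4 := gaussianReal_absolutelyContinuous' 0 (one_ne_zero) h3
    rw [Real.volume_Ici] at h4
    exact ENNReal.top_ne_zero h4
  · exact measure_ne_top _ _

theorem gauss_large {V : Ω → ℝ} (hV : HasGaussianLaw V P) (hm : Measurable V)
    (h0 : ∫ w, V w ∂P = 0) {σ : ℝ} (hσ : 0 < σ) (hv : σ ^ 2 / 2 ≤ Var[V; P]) :
    ENNReal.ofReal q9 ≤ P {w | 6 * σ ≤ V w} := by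
  have h1 := hV.map_eq_gaussianReal
  have h2 : P {w | 6 * σ ≤ V w} = (P.map V) (Set.Ici (6 * σ)) := by
    rw [Measure.map_apply hm measurableSet_Ici]
    rfl
  rw [h2, h1, h0]
  set v := Var[V; P] with hvdef
  have hv0 : 0 < v := lt_of_lt_of_le (by positivity) hv
  have h3 := gaussianReal_map_const_mul (μ := 0) (v := 1) (√v)
  have h4 : NNReal.mk (√v ^ 2) (sq_nonneg _) * 1 = v.toNNReal := by
    ext
    rw [NNReal.coe_mul, NNReal.coe_mk, NNReal.coe_one, mul_one, sq_sqrt hv0.le,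
      Real.coe_toNNReal _ hv0.le]
  rw [mul_zero, h4] at h3
  rw [← h3, Measure.map_apply (by fun_prop) measurableSet_Ici, q9,
    ENNReal.ofReal_toReal (measure_ne_top _ _)]
  apply measure_mono
  intro x hx
  simp only [Set.mem_Ici, Set.mem_preimage] at hx ⊢
  have h5 : 2 / 3 * σ ≤ √v := by
    apply le_sqrt_of_sq_le
    nlinarith [sq_nonneg σ]
  nlinarith [sqrt_nonneg v]

variable {d : ℕ} {X : E d → Ω → ℝ} {f : E d → ℝ} {s κ η : ℝ} {i : Fin d} {V V' : Ω → ℝ}
  {Y : E d → Ω → ℝ}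

theorem tail_one {V : Ω → ℝ} (hV : HasGaussianLaw V P) (h0 : ∫ w, V w ∂P = 0) {σ : ℝ}
    (hσ : 0 < σ) (hv : Var[V; P] ≤ 5 / 4 * σ ^ 2) {t : ℝ} (ht : 1 ≤ t) :
    P {w | ((t - 1 / 2) * σ) ^ 2 / 2 ≤ V w ^ 2} ≤
      ENNReal.ofReal (2 * exp (-((t - 1) ^ 2 / 8))) := by
  set b : ℝ := (t - 1 / 2) * σ / √2 with hb
  have hb0 : 0 < b := by
    have : 0 < t - 1 / 2 := by linarith
    positivity
  have hb2 : b ^ 2 = ((t - 1 / 2) * σ) ^ 2 / 2 := by
    rw [hb, div_pow, sq_sqrt (by norm_num)]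
  set v : ℝ := 5 / 4 * σ ^ 2 with hvd
  have hv0 : 0 < v := by positivity
  have h1 := gauss_tail hV h0 hv (t := b / v) (by positivity) b
  have h2 := gauss_tail' hV h0 hv (t := b / v) (by positivity) b
  have e : exp ((b / v) ^ 2 * v / 2 - b / v * b) ≤ exp (-((t - 1) ^ 2 / 8)) := by
    apply exp_le_exp.2
    have e1 : (b / v) ^ 2 * v / 2 - b / v * b = -(b ^ 2 / (2 * v)) := by field_simp; ring
    rw [e1, neg_le_neg_iff, hb2, hvd]
    have e2 : ((t - 1 / 2) * σ) ^ 2 / 2 / (2 * (5 / 4 * σ ^ 2)) = (t - 1 / 2) ^ 2 / 5 := by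
      field_simp
      ring
    rw [e2]
    nlinarith
  have hsub : {w | ((t - 1 / 2) * σ) ^ 2 / 2 ≤ V w ^ 2} ⊆ {w | b ≤ V w} ∪ {w | V w ≤ -b} := by
    intro w hw
    simp only [Set.mem_ofPred_eq] at hw
    rw [← hb2, sq_le_sq, abs_of_pos hb0] at hw
    rcases le_abs.1 hw with h | h
    · exact Or.inl h
    · right
      simp only [Set.mem_ofPred_eq]
      linarith
  refine (measure_mono hsub).trans ((measure_union_le _ _).trans ?_)
  refine (add_le_add h1 h2).trans ?_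
  rw [← ENNReal.ofReal_add (exp_pos _).le (exp_pos _).le]
  apply ENNReal.ofReal_le_ofReal
  linarith

theorem amp_tail [IsProbabilityMeasure P] (D : Decomp P X f s κ i η V V' Y) {σ : ℝ} (hσ : 0 < σ)
    (hs : s ≤ σ ^ 2) (hη : η ≤ σ ^ 2 / 4) {t : ℝ} (ht0 : 0 ≤ t) :
    P {w | (t - 1 / 2) * σ < amp V V' w} ≤ ENNReal.ofReal (4 * exp (-((t - 1) ^ 2 / 8))) := by
  rcases le_total 1 t with ht | ht
  · have h1 := tail_one D.gV D.zV hσ (by linarith [(abs_le.1 D.vV).2]) ht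
    have h2 := tail_one D.gV' D.zV' hσ (by linarith [(abs_le.1 D.vV').2]) ht
    have hsub : {w | (t - 1 / 2) * σ < amp V V' w} ⊆
        {w | ((t - 1 / 2) * σ) ^ 2 / 2 ≤ V w ^ 2} ∪ {w | ((t - 1 / 2) * σ) ^ 2 / 2 ≤ V' w ^ 2} := by
      intro w hw
      simp only [Set.mem_ofPred_eq, amp] at hw
      have h3 : 0 ≤ (t - 1 / 2) * σ := mul_nonneg (by linarith) hσ.le
      have h4 := (lt_sqrt h3).1 hw
      by_contra hcon
      simp only [Set.mem_union, Set.mem_ofPred_eq, not_or, not_le] at hcon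
      linarith [hcon.1, hcon.2]
    refine (measure_mono hsub).trans ((measure_union_le _ _).trans ((add_le_add h1 h2).trans ?_))
    rw [← ENNReal.ofReal_add (by positivity) (by positivity)]
    apply ENNReal.ofReal_le_ofReal
    linarith
  · refine prob_le_one.trans ?_
    rw [← ENNReal.ofReal_one]
    apply ENNReal.ofReal_le_ofReal
    have h1 : -((t - 1) ^ 2 / 8) + 1 ≤ exp (-((t - 1) ^ 2 / 8)) := add_one_le_exp _
    nlinarith

theorem amp_markov [IsProbabilityMeasure P] (D : Decomp P X f s κ i η V V' Y) {σ : ℝ} (hσ : 0 < σ)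
    (hs : s ≤ σ ^ 2) (hη : η ≤ σ ^ 2 / 4) :
    P {w | 5 / 2 * σ < amp V V' w} ≤ ENNReal.ofReal (1 / 2) := by
  have hmem : ∀ {Z : Ω → ℝ}, HasGaussianLaw Z P → MemLp Z 2 P := fun h => h.memLp_two
  have hi1 : Integrable (fun w => V w ^ 2) P := (hmem D.gV).integrable_sq
  have hi2 : Integrable (fun w => V' w ^ 2) P := (hmem D.gV').integrable_sq
  have hv1 : ∫ w, V w ^ 2 ∂P = Var[V; P] := by
    rw [variance_eq_integral D.mV.aemeasurable, D.zV]; simp
  have hv2 : ∫ w, V' w ^ 2 ∂P = Var[V'; P] := by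
    rw [variance_eq_integral D.mV'.aemeasurable, D.zV']; simp
  have hI : ∫ w, (V w ^ 2 + V' w ^ 2) ∂P ≤ 5 / 2 * σ ^ 2 := by
    rw [integral_add hi1 hi2, hv1, hv2]
    linarith [(abs_le.1 D.vV).2, (abs_le.1 D.vV').2]
  have h1 := mul_meas_ge_le_integral_of_nonneg (μ := P) (f := fun w => V w ^ 2 + V' w ^ 2)
    (ae_of_all _ fun w => by positivity) (hi1.add hi2) (25 / 4 * σ ^ 2)
  have h2 : P.real {w | 25 / 4 * σ ^ 2 ≤ V w ^ 2 + V' w ^ 2} ≤ 1 / 2 := by
    have h3 : 0 < σ ^ 2 := by positivity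
    have h4 := h1.trans hI
    by_contra hcon
    push Not at hcon
    nlinarith
  have hsub : {w | 5 / 2 * σ < amp V V' w} ⊆ {w | 25 / 4 * σ ^ 2 ≤ V w ^ 2 + V' w ^ 2} := by
    intro w hw
    simp only [Set.mem_ofPred_eq, amp] at hw ⊢
    have h4 := (lt_sqrt (by positivity)).1 hw
    nlinarith
  refine (measure_mono hsub).trans ?_
  rw [← ofReal_measureReal]
  exact ENNReal.ofReal_le_ofReal h2

theorem amp_large [IsProbabilityMeasure P] (D : Decomp P X f s κ i η V V' Y) {σ : ℝ} (hσ : 0 < σ)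
    (hs : 3 / 4 * σ ^ 2 ≤ s) (hη : η ≤ σ ^ 2 / 4) :
    ENNReal.ofReal q9 ≤ P {w | 6 * σ ≤ amp V V' w} := by
  refine (gauss_large D.gV D.mV D.zV hσ (by linarith [(abs_le.1 D.vV).1])).trans (measure_mono ?_)
  intro w hw
  simp only [Set.mem_ofPred_eq, amp] at hw ⊢
  refine hw.trans ?_
  apply le_sqrt_of_sq_le
  nlinarith [sq_nonneg (V' w)]

end Pool.Agent.Y980.ID
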