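import Pool.Agent.Y980.ID.PD

/-!
# The smoothed kernel
-/

set_option autoImplicit false

namespace Pool.Agent.Y980.ID

open MeasureTheory ProbabilityTheory Filter Topology Real

variable {d : ℕ}

/-- an even bounded probability density -/
structure Dens (T : E d → ℝ) : Prop where
  meas : Measurable T
  nonneg : ∀ x, 0 ≤ T x
  even : ∀ x, T (-x) = T x
  bdd : ∃ C : ℝ, 0 ≤ C ∧ ∀ x, T x ≤ C
  int : Integrable T
  int_one : ∫ x, T x = 1

theorem Bump.integrable {θ : E d → ℝ} (h : Bump θ) : Integrable θ := by
  by_contra hc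
  have := h.int_one
  rw [integral_undef hc] at this
  exact zero_ne_one this

theorem Bump.dens {θ : E d → ℝ} (h : Bump θ) {ε : ℝ} (hε : 0 < ε) :
    Dens (fun y => ε⁻¹ ^ d * θ (ε⁻¹ • y)) := by
  have hm := h.meas
  obtain ⟨C, hC⟩ := h.bdd
  have e : Module.finrank ℝ (E d) = d := by simp
  refine ⟨by fun_prop, fun x => mul_nonneg (by positivity) (h.nonneg _), fun x => ?_,
    ⟨ε⁻¹ ^ d * C, ?_, fun x => mul_le_mul_of_nonneg_left (hC _) (by positivity)⟩, ?_, ?_⟩
  · rw [smul_neg, h.even]
  · exact mul_nonneg (by positivity) ((h.nonneg 0).trans (hC 0))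
  · apply Integrable.const_mul
    exact (integrable_comp_smul_iff volume θ (inv_ne_zero hε.ne')).2 h.integrable
  · rw [integral_const_mul, Measure.integral_comp_inv_smul_of_nonneg volume θ hε.le, e, h.int_one,
      smul_eq_mul, mul_one, ← mul_pow, inv_mul_cancel₀ hε.ne', one_pow]

/-- convolution with a density -/
noncomputable def cv (T g : E d → ℝ) (x : E d) : ℝ := ∫ y, T y * g (x - y)

section

variable {T : E d → ℝ} (hT : Dens T)

include hT

theorem cv_int {g : E d → ℝ} (hg : Integrable g) (x : E d) :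
    Integrable (fun y => T y * g (x - y)) := by
  obtain ⟨C, hC0, hC⟩ := hT.bdd
  have h1 : Integrable (fun y => g (x - y)) := hg.comp_sub_left x
  exact h1.bdd_mul (c := C) hT.meas.aestronglyMeasurable
    (ae_of_all _ fun y => by rw [norm_eq_abs, abs_of_nonneg (hT.nonneg y)]; exact hC y)

theorem cv_nonneg {g : E d → ℝ} (hg : ∀ x, 0 ≤ g x) (x : E d) : 0 ≤ cv T g x :=
  integral_nonneg fun y => mul_nonneg (hT.nonneg y) (hg _)

theorem cv_bdd {g : E d → ℝ} (hg : Integrable g) (hg0 : ∀ x, 0 ≤ g x) {C : ℝ}
    (hC : ∀ x, T x ≤ C) (x : E d) : cv T g x ≤ C * ∫ y, g y := by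
  unfold cv
  rw [← integral_const_mul, ← integral_sub_left_eq_self (fun y => C * g y) volume x]
  refine integral_mono (cv_int hT hg x) ((hg.comp_sub_left x).const_mul C) fun y => ?_
  exact mul_le_mul_of_nonneg_right (hC y) (hg0 _)

theorem cv_measurable {g : E d → ℝ} (hg : Measurable g) : Measurable (cv T g) := by
  have h : StronglyMeasurable (Function.uncurry (fun x y : E d => T y * g (x - y))) := by
    apply Measurable.stronglyMeasurable
    have := hT.meas
    unfold Function.uncurry
    fun_prop
  exact h.integral_prod_right.measurable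

theorem cv_exp {μ : ℝ} {g : E d → ℝ} (hg : Integrable g)
    (hI : Integrable (fun x => exp (μ * g x) - 1)) (x : E d) :
    exp (μ * cv T g x) - 1 ≤ cv T (fun z => exp (μ * g z) - 1) x := by
  set m := μ * cv T g x with hm
  have h1 : Integrable (fun y => T y * g (x - y)) := cv_int hT hg x
  have h2 := cv_int hT hI x
  have h3 : ∫ y, (exp m * (μ * (T y * g (x - y)) + (1 - m) * T y) - T y) = exp m - 1 := by
    have a1 : Integrable (fun y => μ * (T y * g (x - y)) + (1 - m) * T y) :=
      (h1.const_mul μ).add (hT.int.const_mul _)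
    rw [integral_sub (a1.const_mul _) hT.int, integral_const_mul,
      integral_add (h1.const_mul μ) (hT.int.const_mul _), integral_const_mul, integral_const_mul,
      hT.int_one]
    have : μ * ∫ y, T y * g (x - y) = m := by rw [hm]; rfl
    rw [this]
    ring
  rw [← h3]
  unfold cv
  have a1 : Integrable (fun y => μ * (T y * g (x - y)) + (1 - m) * T y) :=
    (h1.const_mul μ).add (hT.int.const_mul _)
  refine integral_mono ((a1.const_mul _).sub hT.int) h2 fun y => ?_
  simp only
  have h4 := hT.nonneg y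
  have h5 : exp m * (μ * g (x - y) + (1 - m)) ≤ exp (μ * g (x - y)) := by
    have h6 := add_one_le_exp (μ * g (x - y) - m)
    have h7 : exp m * exp (μ * g (x - y) - m) = exp (μ * g (x - y)) := by
      rw [← exp_add]; congr 1; ring
    have h8 := mul_le_mul_of_nonneg_left h6 (exp_pos m).le
    rw [h7] at h8
    linarith
  have h6 := mul_le_mul_of_nonneg_left h5 h4
  nlinarith

theorem cv_exp_int {μ : ℝ} (hμ : 0 ≤ μ) {g : E d → ℝ} (hgm : Measurable g) (hg : Integrable g)
    (hg0 : ∀ x, 0 ≤ g x) (hI : Integrable (fun x => exp (μ * g x) - 1)) :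
    Integrable (fun x => exp (μ * cv T g x) - 1) ∧
    ∫ x, (exp (μ * cv T g x) - 1) ≤ ∫ x, (exp (μ * g x) - 1) := by
  have h1 : Integrable (cv T (fun z => exp (μ * g z) - 1)) :=
    hT.int.integrable_convolution (ContinuousLinearMap.mul ℝ ℝ) hI
  have h2 : ∫ x, cv T (fun z => exp (μ * g z) - 1) x = ∫ x, (exp (μ * g x) - 1) := by
    have := integral_convolution (ContinuousLinearMap.mul ℝ ℝ) hT.int hI (μ := volume)
    rw [hT.int_one] at this
    simp only [ContinuousLinearMap.mul_apply', one_mul] at this
    exact this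
  have h3 : Integrable (fun x => exp (μ * cv T g x) - 1) := by
    refine Integrable.mono' h1 ?_ (ae_of_all _ fun x => ?_)
    · have := cv_measurable hT hgm
      apply Measurable.aestronglyMeasurable
      fun_prop
    · have : 0 ≤ exp (μ * cv T g x) - 1 := by
        have := one_le_exp (mul_nonneg hμ (cv_nonneg hT hg0 x))
        linarith
      rw [norm_eq_abs, abs_of_nonneg this]
      exact cv_exp hT hg hI x
  refine ⟨h3, ?_⟩
  rw [← h2]
  exact integral_mono h3 h1 fun x => cv_exp hT hg hI x

/-- decay at infinity -/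
theorem cv_decay {g : E d → ℝ} (hgm : Measurable g) (hg : Integrable g) (hg0 : ∀ x, 0 ≤ g x)
    (hgd : Tendsto g (comap norm atTop) (𝓝 0)) {η : ℝ} (hη : 0 < η) :
    ∃ ρ : ℝ, 0 < ρ ∧ ∀ x, ρ ≤ ‖x‖ → cv T g x ≤ η := by
  obtain ⟨C, hC0, hC⟩ := hT.bdd
  -- the truncation level
  have h1 : Tendsto (fun n : ℕ => ∫ x, (g x - min (g x) n)) atTop (𝓝 (∫ _x : E d, (0 : ℝ))) := by
    refine tendsto_integral_of_dominated_convergence (fun x => g x) (fun n => ?_) hg (fun n => ?_) ?_
    · apply Measurable.aestronglyMeasurable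
      fun_prop
    · refine ae_of_all _ fun x => ?_
      have : min (g x) n ≤ g x := min_le_left _ _
      have h3 : 0 ≤ min (g x) n := le_min (hg0 x) (Nat.cast_nonneg n)
      rw [norm_eq_abs, abs_of_nonneg (by linarith)]
      linarith
    · refine ae_of_all _ fun x => ?_
      obtain ⟨N, hN⟩ := exists_nat_ge (g x)
      refine tendsto_const_nhds.congr' ?_
      filter_upwards [eventually_ge_atTop N] with n hn
      have : g x ≤ n := hN.trans (by exact_mod_cast hn)
      rw [min_eq_left this, sub_self]
  rw [integral_zero] at h1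
  have h2 : Tendsto (fun n : ℕ => C * ∫ x, (g x - min (g x) n)) atTop (𝓝 0) := by
    simpa using h1.const_mul C
  obtain ⟨n, hn⟩ := (h2.eventually (gt_mem_nhds (half_pos hη))).exists
  -- the truncated part
  have h3 : Tendsto (fun x : E d => ∫ y, T y * min (g (x - y)) n) (comap norm atTop)
      (𝓝 (∫ _y : E d, (0 : ℝ))) := by
    refine tendsto_integral_filter_of_dominated_convergence (fun y => T y * n)
      (Eventually.of_forall fun x => ?_) (Eventually.of_forall fun x => ae_of_all _ fun y => ?_)
      (hT.int.mul_const _) (ae_of_all _ fun y => ?_)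
    · apply Measurable.aestronglyMeasurable
      have := hT.meas
      fun_prop
    · have h3 : 0 ≤ min (g (x - y)) n := le_min (hg0 _) (Nat.cast_nonneg n)
      have h4 := hT.nonneg y
      rw [norm_eq_abs, abs_of_nonneg (by positivity)]
      exact mul_le_mul_of_nonneg_left (min_le_right _ _) h4
    · have h4 : Tendsto (fun x : E d => x - y) (comap norm atTop) (comap norm atTop) := by
        rw [tendsto_comap_iff]
        refine tendsto_atTop_mono (f := fun x : E d => ‖x‖ + -‖y‖) (fun x => ?_)
          (tendsto_atTop_add_const_right _ _ tendsto_comap)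
        have := norm_sub_norm_le x y
        simp only [Function.comp_apply]
        linarith
      have h5 : Tendsto (fun x : E d => min (g (x - y)) n) (comap norm atTop) (𝓝 0) := by
        refine tendsto_of_tendsto_of_tendsto_of_le_of_le tendsto_const_nhds (hgd.comp h4)
          (fun x => le_min (hg0 _) (Nat.cast_nonneg n)) (fun x => min_le_left _ _)
      simpa using h5.const_mul (T y)
  rw [integral_zero] at h3
  have h4 := h3.eventually (gt_mem_nhds (half_pos hη))
  rw [eventually_comap] at h4
  obtain ⟨ρ, hρ⟩ := eventually_atTop.1 h4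
  refine ⟨max ρ 1, by positivity, fun x hx => ?_⟩
  have h5 := hρ ‖x‖ ((le_max_left _ _).trans hx) x rfl
  have h6 : Integrable (fun y => T y * min (g (x - y)) n) := by
    refine Integrable.mono' (cv_int hT hg x) ?_ (ae_of_all _ fun y => ?_)
    · apply Measurable.aestronglyMeasurable
      have := hT.meas
      fun_prop
    · have h3 : 0 ≤ min (g (x - y)) n := le_min (hg0 _) (Nat.cast_nonneg n)
      have h4 := hT.nonneg y
      rw [norm_eq_abs, abs_of_nonneg (by positivity)]
      exact mul_le_mul_of_nonneg_left (min_le_left _ _) h4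
  have h7 : Integrable (fun z => g z - min (g z) n) := by
    refine Integrable.mono' hg ?_ (ae_of_all _ fun y => ?_)
    · apply Measurable.aestronglyMeasurable
      fun_prop
    · have : min (g y) n ≤ g y := min_le_left _ _
      have h3 : 0 ≤ min (g y) n := le_min (hg0 y) (Nat.cast_nonneg n)
      rw [norm_eq_abs, abs_of_nonneg (by linarith)]
      linarith
  have h8 : cv T g x = (∫ y, T y * min (g (x - y)) n) + cv T (fun z => g z - min (g z) n) x := by
    unfold cv
    rw [← integral_add h6 (cv_int hT h7 x)]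
    refine integral_congr_ae (ae_of_all _ fun y => ?_)
    simp only
    ring
  have h9 := cv_bdd hT h7 (fun z => by have := min_le_left (g z) (n : ℝ); linarith) hC x
  rw [h8]
  linarith

/-- the wave is an eigenfunction -/
theorem cv_wave (κ : ℝ) (i : Fin d) (x : E d) :
    cv T (wave κ i) x = (∫ y, T y * cos (κ * y i)) * wave κ i x := by
  have hc : Integrable (fun y => T y * cos (κ * y i)) := by
    have h3 := hT.int.bdd_mul (f := fun x : E d => cos (κ * x i)) (c := 1)
      (by apply Continuous.aestronglyMeasurable; fun_prop) (ae_of_all _ fun p => abs_cos_le_one _)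
    refine h3.congr (ae_of_all _ fun p => ?_)
    simp only
    ring
  have hs : Integrable (fun y => T y * sin (κ * y i)) := by
    have h3 := hT.int.bdd_mul (f := fun x : E d => sin (κ * x i)) (c := 1)
      (by apply Continuous.aestronglyMeasurable; fun_prop) (ae_of_all _ fun p => abs_sin_le_one _)
    refine h3.congr (ae_of_all _ fun p => ?_)
    simp only
    ring
  have h0 : ∫ y, T y * sin (κ * y i) = 0 := by
    have h1 := integral_neg_eq_self (fun y : E d => T y * sin (κ * y i)) volume
    have h2 : ∫ y : E d, T (-y) * sin (κ * (-y) i) = - ∫ y, T y * sin (κ * y i) := by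
      rw [← integral_neg]
      refine integral_congr_ae (ae_of_all _ fun y => ?_)
      simp only [hT.even, PiLp.neg_apply, mul_neg, sin_neg]
    rw [h2] at h1
    linarith
  unfold cv wave
  have h1 : ∀ y : E d, T y * cos (κ * (x - y) i) = cos (κ * x i) * (T y * cos (κ * y i)) +
      sin (κ * x i) * (T y * sin (κ * y i)) := by
    intro y
    rw [PiLp.sub_apply, mul_sub, cos_sub]
    ring
  simp_rw [h1]
  rw [integral_add (hc.const_mul _) (hs.const_mul _), integral_const_mul, integral_const_mul, h0]
  ring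

theorem cv_cos_le (κ : ℝ) (i : Fin d) : |∫ y, T y * cos (κ * y i)| ≤ 1 := by
  have h : ‖∫ y, T y * cos (κ * y i)‖ ≤ ∫ y, T y := by
    refine norm_integral_le_of_norm_le hT.int (ae_of_all _ fun y => ?_)
    rw [norm_mul, norm_eq_abs, norm_eq_abs, abs_of_nonneg (hT.nonneg y)]
    exact mul_le_of_le_one_right (hT.nonneg y) (abs_cos_le_one _)
  rwa [norm_eq_abs, hT.int_one] at h

end

theorem g0_tendsto : Tendsto (g0 (d := d)) (comap norm atTop) (𝓝 0) := by
  have h1 : Tendsto (fun r : ℝ => exp (-r ^ 2) / 2) atTop (𝓝 0) := by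
    have h2 : Tendsto (fun r : ℝ => -r ^ 2) atTop atBot := by
      apply tendsto_neg_atTop_atBot.comp
      exact tendsto_pow_atTop (by norm_num)
    simpa using (tendsto_exp_atBot.comp h2).div_const 2
  refine tendsto_of_tendsto_of_tendsto_of_le_of_le' tendsto_const_nhds (h1.comp tendsto_comap)
    (Eventually.of_forall g0_nonneg) ?_
  have h3 : ∀ᶠ x : E d in comap norm atTop, 1 ≤ ‖x‖ := tendsto_comap.eventually (eventually_ge_atTop 1)
  filter_upwards [h3] with x hx
  exact g0_le_exp hx

/-- the smoothed kernel of the counterexample -/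
theorem smooth_gA (hd : 1 ≤ d) {θ : E d → ℝ} (hθ : Bump θ) {ε : ℝ} (hε : 0 < ε) (A κ : ℝ)
    (i : Fin d) (x : E d) : smooth θ (gA A κ i) ε x =
      cv (fun y => ε⁻¹ ^ d * θ (ε⁻¹ • y)) g0 x +
      A * (∫ y : E d, (ε⁻¹ ^ d * θ (ε⁻¹ • y)) * cos (κ * y i)) * wave κ i x := by
  have hT := hθ.dens hε
  set T : E d → ℝ := fun y => ε⁻¹ ^ d * θ (ε⁻¹ • y) with hTdef
  have h1 := cv_int hT (integrable_g0 hd) x
  have h2 : Integrable (fun y => T y * wave κ i (x - y)) := by
    have hw := continuous_wave κ i
    have h3 := hT.int.bdd_mul (f := fun y : E d => wave κ i (x - y)) (c := 1)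
      (by apply Continuous.aestronglyMeasurable; fun_prop) (ae_of_all _ fun p => abs_cos_le_one _)
    refine h3.congr (ae_of_all _ fun p => ?_)
    simp only
    ring
  have h3 : smooth θ (gA A κ i) ε x = cv T g0 x + A * cv T (wave κ i) x := by
    unfold smooth cv
    rw [← integral_const_mul, ← integral_add h1 (h2.const_mul A)]
    refine integral_congr_ae (ae_of_all _ fun y => ?_)
    simp only [gA, hTdef]
    ring
  rw [h3, cv_wave hT]
  ring

/-- the multiplier tends to one -/
theorem mult_tendsto {θ : E d → ℝ} (hθ : Bump θ) (κ : ℝ) (i : Fin d) {ε : ℕ → ℝ}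
    (hε : ∀ k, 0 < ε k) (h0 : Tendsto ε atTop (𝓝 0)) :
    Tendsto (fun k => ∫ y : E d, ((ε k)⁻¹ ^ d * θ ((ε k)⁻¹ • y)) * cos (κ * y i)) atTop (𝓝 1) := by
  have e : Module.finrank ℝ (E d) = d := by simp
  have h1 : ∀ k, ∫ y : E d, ((ε k)⁻¹ ^ d * θ ((ε k)⁻¹ • y)) * cos (κ * y i) =
      ∫ w : E d, θ w * cos (κ * (ε k * w i)) := by
    intro k
    have h2 := Measure.integral_comp_inv_smul_of_nonneg volume
      (fun w : E d => θ w * cos (κ * (ε k * w i))) (hε k).le
    rw [e, smul_eq_mul] at h2
    have h3 : ∫ w : E d, θ w * cos (κ * (ε k * w i)) = (ε k)⁻¹ ^ d *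
        ∫ (x : E d), (fun w : E d => θ w * cos (κ * (ε k * w i))) ((ε k)⁻¹ • x) := by
      rw [h2, ← mul_assoc, ← mul_pow, inv_mul_cancel₀ (hε k).ne', one_pow, one_mul]
    rw [h3, ← integral_const_mul]
    refine integral_congr_ae (ae_of_all _ fun y => ?_)
    simp only [PiLp.smul_apply, smul_eq_mul]
    rw [mul_inv_cancel_left₀ (hε k).ne']
    ring
  simp_rw [h1]
  have h4 : ∫ w : E d, θ w = 1 := hθ.int_one
  rw [← h4]
  refine tendsto_integral_of_dominated_convergence (fun w => θ w) (fun k => ?_) hθ.integrable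
    (fun k => ae_of_all _ fun w => ?_) (ae_of_all _ fun w => ?_)
  · apply Measurable.aestronglyMeasurable
    have := hθ.meas
    fun_prop
  · rw [norm_mul, norm_eq_abs, norm_eq_abs, abs_of_nonneg (hθ.nonneg w)]
    exact mul_le_of_le_one_right (hθ.nonneg w) (abs_cos_le_one _)
  · have h5 : Tendsto (fun k => θ w * cos (κ * (ε k * w i))) atTop
        (𝓝 (θ w * cos (κ * (0 * w i)))) :=
      ((continuous_cos.tendsto _).comp ((h0.mul_const _).const_mul κ)).const_mul _
    simpa using h5

end Pool.Agent.Y980.ID
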