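import Mathlib

/-!
# Definitions for the statement on the total mass of Gaussian multiplicative chaos
-/

set_option autoImplicit false

namespace Pool.Agent.Y980.ID

open MeasureTheory ProbabilityTheory Filter Topology BoundedContinuousFunction

/-- the space `ℝ^d` -/
abbrev E (d : ℕ) := EuclideanSpace ℝ (Fin d)

/-- positive definiteness of a (locally integrable) function, tested against continuous functions
of compact support -/
def PosDef {d : ℕ} (g : E d → ℝ) : Prop :=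
  ∀ f : E d → ℝ, Continuous f → HasCompactSupport f → 0 ≤ ∫ x, ∫ y, f x * g (x - y) * f y

/-- The admissible kernels `g(x) = log⁺ (1/|x|) + h(x)` (for `x ≠ 0`; the value at the origin is
irrelevant), `h` bounded and continuous, `g` even and positive definite. -/
structure Admissible {d : ℕ} (g : E d → ℝ) : Prop where
  even : ∀ x, g (-x) = g x
  posDef : PosDef g
  form : ∃ h : E d → ℝ, Continuous h ∧ (∃ C : ℝ, ∀ x, |h x| ≤ C) ∧
    ∀ x, x ≠ 0 → g x = max (Real.log (1 / ‖x‖)) 0 + h x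

/-- bump functions: nonnegative, even, bounded, of integral one -/
structure Bump {d : ℕ} (θ : E d → ℝ) : Prop where
  meas : Measurable θ
  nonneg : ∀ x, 0 ≤ θ x
  even : ∀ x, θ (-x) = θ x
  bdd : ∃ C : ℝ, ∀ x, θ x ≤ C
  int_one : ∫ x, θ x = 1

/-- `(θ_ε ⋆ g)(x)` with `θ_ε(z) = ε^{-d} θ(z/ε)` -/
noncomputable def smooth {d : ℕ} (θ g : E d → ℝ) (ε : ℝ) (x : E d) : ℝ :=
  ∫ y, ε⁻¹ ^ d * θ (ε⁻¹ • y) * g (x - y)

/-- `η` is the law of `∫_D φ(x) e^{ω(x)} dx`, where `D` is the ball of centre `c` and radius `R` and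
`ω` is a (jointly measurable) Gaussian process with covariance `μ (θ_ε ⋆ g)(x - y)` and mean minus
one half of the variance. -/
def IsRegMass {d : ℕ} (g : E d → ℝ) (μ : ℝ) (θ : E d → ℝ) (ε : ℝ) (c : E d) (R : ℝ)
    (φ : E d → ℝ) (η : Measure ℝ) : Prop :=
  ∃ (Ω : Type) (_ : MeasurableSpace Ω) (P : Measure Ω) (ω : E d → Ω → ℝ),
    IsProbabilityMeasure P ∧ IsGaussianProcess ω P ∧ Measurable (Function.uncurry ω) ∧
    (∀ x y, cov[ω x, ω y; P] = μ * smooth θ g ε (x - y)) ∧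
    (∀ x, ∫ w, ω x w ∂P = -(1 / 2) * Var[ω x; P]) ∧
    η = P.map (fun w => ∫ x in Metric.ball c R, φ x * Real.exp (ω x w))

/-- `ζ` is the law of the total mass `∫_D φ dM_μ`: it is the limit in law of regularised masses
along some sequence `ε_k → 0+` (and for some bump function). -/
def IsTotalMassLaw {d : ℕ} (g : E d → ℝ) (μ : ℝ) (c : E d) (R : ℝ) (φ : E d → ℝ)
    (ζ : Measure ℝ) : Prop :=
  ∃ θ : E d → ℝ, Bump θ ∧ ∃ ε : ℕ → ℝ, (∀ k, 0 < ε k) ∧ Tendsto ε atTop (𝓝 0) ∧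
    ∃ η : ℕ → Measure ℝ, (∀ k, IsRegMass g μ θ (ε k) c R φ (η k)) ∧
      ∀ f : ℝ →ᵇ ℝ, Tendsto (fun k => ∫ x, f x ∂(η k)) atTop (𝓝 (∫ x, f x ∂ζ))

/-- infinitely divisible laws on the line: for every `n ≥ 1` the law is the law of the sum of `n`
independent variables with a common law -/
def IsInfDiv (ν : Measure ℝ) : Prop :=
  ∀ n : ℕ, 0 < n → ∃ ν' : Measure ℝ, IsProbabilityMeasure ν' ∧
    ν = (Measure.pi (fun _ : Fin n => ν')).map (fun x => ∑ i, x i)

end Pool.Agent.Y980.ID
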