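import Mathlib

/-!
# The exponential integral
-/

set_option autoImplicit false

namespace Pool.Agent.Y980.ID

open MeasureTheory ProbabilityTheory Filter Topology Real

/-- the regular part of the integrand -/
noncomputable def J (u : ℝ) : ℝ := if u < 1 then (exp (-u) - 1) / u else exp (-u) / u

theorem measurable_J : Measurable J := by
  unfold J
  apply Measurable.ite (measurableSet_lt measurable_id measurable_const)
  · fun_prop
  · fun_prop

theorem abs_J_le {u : ℝ} (hu : 0 < u) : |J u| ≤ exp 1 * exp (-u) := by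
  unfold J
  split_ifs with h
  · have h1 : 1 - u ≤ exp (-u) := one_sub_le_exp_neg u
    have h2 : exp (-u) ≤ 1 := exp_le_one_iff.2 (by linarith)
    have h3 : |(exp (-u) - 1) / u| ≤ 1 := by
      rw [abs_div, abs_of_pos hu, div_le_one hu, abs_le]
      constructor <;> linarith
    refine h3.trans ?_
    rw [← exp_add]
    exact one_le_exp (by linarith)
  · have h1 : 1 ≤ u := not_lt.1 h
    have h2 : |exp (-u) / u| ≤ exp (-u) := by
      rw [abs_of_pos (by positivity)]
      exact div_le_self (exp_pos _).le h1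
    refine h2.trans ?_
    have : 1 ≤ exp 1 := one_le_exp (by norm_num)
    have := exp_pos (-u)
    nlinarith

theorem integrableOn_J : IntegrableOn J (Set.Ioi 0) := by
  have h1 : IntegrableOn (fun u : ℝ => exp 1 * exp (-u)) (Set.Ioi 0) :=
    (integrableOn_exp_neg_Ioi 0).const_mul _
  refine Integrable.mono' h1 measurable_J.aestronglyMeasurable ?_
  refine (ae_restrict_iff' measurableSet_Ioi).2 (ae_of_all _ fun u hu => ?_)
  rw [norm_eq_abs]
  exact abs_J_le hu

/-- the extension by zero -/
noncomputable def J0 : ℝ → ℝ := (Set.Ioi (0 : ℝ)).indicator J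

theorem integrable_J0 : Integrable J0 := (integrable_indicator_iff measurableSet_Ioi).2 integrableOn_J

/-- the bounded continuous part -/
noncomputable def H (s : ℝ) : ℝ := (∫ u, J0 u) - ∫ u in (0 : ℝ)..s, J0 u

theorem continuous_H : Continuous H :=
  continuous_const.sub (intervalIntegral.continuous_primitive
    (fun _ _ => integrable_J0.intervalIntegrable) 0)

theorem abs_H_le (s : ℝ) : |H s| ≤ 2 * ∫ u, |J0 u| := by
  unfold H
  have h1 : |∫ u, J0 u| ≤ ∫ u, |J0 u| := abs_integral_le_integral_abs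
  have h2 : |∫ u in (0 : ℝ)..s, J0 u| ≤ ∫ u, |J0 u| := by
    have h3 : ‖∫ u in (0 : ℝ)..s, J0 u‖ ≤ ∫ u in Set.uIoc 0 s, ‖J0 u‖ :=
      intervalIntegral.norm_integral_le_integral_norm_uIoc
    rw [norm_eq_abs] at h3
    refine h3.trans ?_
    exact setIntegral_le_integral integrable_J0.abs (ae_of_all _ fun u => abs_nonneg _)
  have h3 := abs_sub (∫ u, J0 u) (∫ u in (0 : ℝ)..s, J0 u)
  linarith

theorem H_eq {s : ℝ} (hs : 0 ≤ s) : H s = ∫ u in Set.Ioi s, J u := by
  unfold H
  have h1 : ∫ u, J0 u = ∫ u in Set.Ioi 0, J u := by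
    unfold J0
    rw [integral_indicator measurableSet_Ioi]
  have h2 : ∫ u in (0 : ℝ)..s, J0 u = ∫ u in Set.Ioc 0 s, J u := by
    rw [intervalIntegral.integral_of_le hs]
    refine setIntegral_congr_fun measurableSet_Ioc fun u hu => ?_
    unfold J0
    rw [Set.indicator_of_mem (show u ∈ Set.Ioi (0 : ℝ) from hu.1)]
  have h3 : ∫ u in Set.Ioi 0, J u = (∫ u in Set.Ioc 0 s, J u) + ∫ u in Set.Ioi s, J u := by
    rw [← Set.Ioc_union_Ioi_eq_Ioi hs]
    exact setIntegral_union (Set.Ioc_disjoint_Ioi le_rfl) measurableSet_Ioi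
      (integrableOn_J.mono_set Set.Ioc_subset_Ioi_self)
      (integrableOn_J.mono_set (Set.Ioi_subset_Ioi hs))
  rw [h1, h2, h3]
  ring

theorem integrableOn_E1 {s : ℝ} (hs : 0 < s) :
    IntegrableOn (fun u : ℝ => exp (-u) / u) (Set.Ioi s) := by
  have h1 : IntegrableOn (fun u : ℝ => s⁻¹ * exp (-u)) (Set.Ioi s) :=
    (integrableOn_exp_neg_Ioi s).const_mul _
  have hm : Measurable (fun u : ℝ => exp (-u) / u) := by fun_prop
  refine Integrable.mono' h1 hm.aestronglyMeasurable ?_
  refine (ae_restrict_iff' measurableSet_Ioi).2 (ae_of_all _ fun u hu => ?_)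
  have hu' : s < u := hu
  have hu0 : 0 < u := hs.trans hu'
  rw [norm_eq_abs, abs_of_pos (by positivity), div_eq_inv_mul]
  apply mul_le_mul_of_nonneg_right _ (exp_pos _).le
  exact inv_anti₀ hs hu'.le

theorem E1_eq {s : ℝ} (hs : 0 < s) :
    ∫ u in Set.Ioi s, exp (-u) / u = max (log (1 / s)) 0 + H s := by
  rw [H_eq hs.le]
  have hJ := integrableOn_J.mono_set (Set.Ioi_subset_Ioi hs.le)
  have h1 : ∫ u in Set.Ioi s, exp (-u) / u = ∫ u in Set.Ioi s, ((Set.Iio (1 : ℝ)).indicator
      (fun u => 1 / u) u + J u) := by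
    refine setIntegral_congr_fun measurableSet_Ioi fun u hu => ?_
    have hu' : s < u := hu
    have hu0 : 0 < u := hs.trans hu'
    unfold J
    by_cases h : u < 1
    · rw [Set.indicator_of_mem (show u ∈ Set.Iio (1 : ℝ) from h), if_pos h]
      ring
    · rw [Set.indicator_of_notMem (show u ∉ Set.Iio (1 : ℝ) from h), if_neg h, zero_add]
  have h2 : IntegrableOn ((Set.Iio (1 : ℝ)).indicator (fun u => 1 / u)) (Set.Ioi s) := by
    have : (Set.Iio (1 : ℝ)).indicator (fun u => 1 / u) =ᵐ[volume.restrict (Set.Ioi s)]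
        fun u => exp (-u) / u - J u := by
      refine (ae_restrict_iff' measurableSet_Ioi).2 (ae_of_all _ fun u hu => ?_)
      unfold J
      by_cases h : u < 1
      · rw [Set.indicator_of_mem (show u ∈ Set.Iio (1 : ℝ) from h)]
        simp only [if_pos h]
        ring
      · rw [Set.indicator_of_notMem (show u ∉ Set.Iio (1 : ℝ) from h)]
        simp only [if_neg h, sub_self]
    exact ((integrableOn_E1 hs).sub hJ).congr this.symm
  rw [h1, integral_add h2 hJ]
  congr 1
  rw [setIntegral_indicator measurableSet_Iio]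
  rw [Set.Ioi_inter_Iio]
  rcases lt_or_ge s 1 with h | h
  · rw [← integral_Ioc_eq_integral_Ioo, ← intervalIntegral.integral_of_le h.le,
      integral_one_div_of_pos hs one_pos, max_eq_left]
    apply log_nonneg
    rw [le_div_iff₀ hs]
    linarith
  · rw [Set.Ioo_eq_empty (by linarith), Measure.restrict_empty, integral_zero_measure, max_eq_right]
    apply log_nonpos (by positivity)
    rw [div_le_one hs]
    exact h

/-- `E1` as an integral over `v > 1` -/
theorem E1_scale {s : ℝ} (hs : 0 < s) :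
    ∫ v in Set.Ioi (1 : ℝ), exp (-(v * s)) / v = ∫ u in Set.Ioi s, exp (-u) / u := by
  have h := integral_comp_mul_right_Ioi (fun u : ℝ => exp (-u) / u) 1 hs
  rw [one_mul, smul_eq_mul] at h
  have h2 : ∫ u in Set.Ioi s, exp (-u) / u =
      s * ∫ (x : ℝ) in Set.Ioi 1, (fun u : ℝ => exp (-u) / u) (x * s) := by
    rw [h, ← mul_assoc, mul_inv_cancel₀ hs.ne', one_mul]
  rw [h2, ← integral_const_mul]
  refine setIntegral_congr_fun measurableSet_Ioi fun v hv => ?_
  have hv' : (1 : ℝ) < v := hv
  have hv0 : 0 < v := by linarith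
  simp only
  field_simp

theorem integrableOn_scale {s : ℝ} (hs : 0 < s) :
    IntegrableOn (fun v : ℝ => exp (-(v * s)) / v) (Set.Ioi 1) := by
  have h1 : IntegrableOn (fun v : ℝ => exp (-s * v)) (Set.Ioi 1) :=
    integrableOn_exp_mul_Ioi (by linarith) 1
  have hm : Measurable (fun v : ℝ => exp (-(v * s)) / v) := by fun_prop
  refine Integrable.mono' h1 hm.aestronglyMeasurable ?_
  refine (ae_restrict_iff' measurableSet_Ioi).2 (ae_of_all _ fun u hu => ?_)
  have hu' : 1 < u := hu
  have hu0 : 0 < u := by linarith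
  rw [norm_eq_abs, abs_of_pos (by positivity), show -(u * s) = -s * u by ring]
  exact div_le_self (exp_pos _).le hu'.le

theorem E1_nonneg (s : ℝ) : 0 ≤ ∫ v in Set.Ioi (1 : ℝ), exp (-(v * s)) / v := by
  refine setIntegral_nonneg measurableSet_Ioi fun v hv => ?_
  have hv' : (1 : ℝ) < v := hv
  have hv0 : 0 < v := by linarith
  positivity

theorem E1_le {s : ℝ} (hs : 1 ≤ s) : ∫ v in Set.Ioi (1 : ℝ), exp (-(v * s)) / v ≤ exp (-s) := by
  have hs0 : 0 < s := by linarith
  rw [E1_scale hs0, ← integral_exp_neg_Ioi s]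
  refine setIntegral_mono_on (integrableOn_E1 hs0) (integrableOn_exp_neg_Ioi s)
    measurableSet_Ioi fun u hu => ?_
  have hu' : s < u := hu
  exact div_le_self (exp_pos _).le (by linarith)

end Pool.Agent.Y980.ID
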