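import Pool.Agent.Y980.ID.Mass

/-!
# Extraction of the amplitude of the wave by finite averages
-/

set_option autoImplicit false

namespace Pool.Agent.Y980.ID

open MeasureTheory ProbabilityTheory Filter Topology Real
open scoped ENNReal

variable {d : ℕ}

/-- the points of the averages -/
noncomputable def pt (i : Fin d) (L a : ℝ) (m : ℕ) : E d := EuclideanSpace.single i (m * L + a)

theorem pt_apply (i : Fin d) (L a : ℝ) (m : ℕ) : pt i L a m i = m * L + a := by
  simp [pt]

theorem pt_dist (i : Fin d) {L : ℝ} (hL : 0 < L) (a : ℝ) {m m' : ℕ} (h : m ≠ m') :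
    L ≤ ‖pt i L a m - pt i L a m'‖ := by
  have h1 : |(pt i L a m - pt i L a m') i| ≤ ‖pt i L a m - pt i L a m'‖ := by
    have := PiLp.norm_apply_le (pt i L a m - pt i L a m') i
    rwa [norm_eq_abs] at this
  refine le_trans ?_ h1
  rw [PiLp.sub_apply, pt_apply, pt_apply]
  have h2 : (m : ℝ) * L + a - (m' * L + a) = ((m : ℝ) - m') * L := by ring
  rw [h2, abs_mul, abs_of_pos hL]
  have h3 : (1 : ℝ) ≤ |(m : ℝ) - m'| := by
    have h4 : (m : ℤ) - m' ≠ 0 := by
      intro h5
      apply h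
      omega
    have h5 := Int.one_le_abs h4
    exact_mod_cast h5
  nlinarith

/-- averages of a decaying function -/
theorem avg_small {f : E d → ℝ} {F η ρ L : ℝ} (hF : ∀ x, f x ≤ F)
    (hη : ∀ x, ρ ≤ ‖x‖ → f x ≤ η) (hη0 : 0 ≤ η) (hF0 : 0 ≤ F)
    (hL0 : 0 < L) (hL : 2 * ρ ≤ L) {N : ℕ} (hN : 0 < N)
    (i : Fin d) (a : ℝ) (x : E d) :
    (N : ℝ)⁻¹ * ∑ m ∈ Finset.range N, f (pt i L a m - x) ≤ η + F / N := by
  have hN' : (0 : ℝ) < N := by exact_mod_cast hN
  have h1 : ∑ m ∈ Finset.range N, f (pt i L a m - x) ≤ N * η + F := by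
    by_cases hex : ∃ m₀, ‖pt i L a m₀ - x‖ < ρ
    · obtain ⟨m₀, hm₀⟩ := hex
      have h2 : ∀ m ∈ Finset.range N, f (pt i L a m - x) ≤ η + if m = m₀ then F else 0 := by
        intro m _
        by_cases hm : m = m₀
        · rw [if_pos hm]
          linarith [hF (pt i L a m - x)]
        · rw [if_neg hm, add_zero]
          apply hη
          have h3 := pt_dist i hL0 a hm
          have h4 : ‖pt i L a m - pt i L a m₀‖ ≤ ‖pt i L a m - x‖ + ‖pt i L a m₀ - x‖ := by
            have := norm_sub_le (pt i L a m - x) (pt i L a m₀ - x)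
            rwa [sub_sub_sub_cancel_right] at this
          linarith
      refine (Finset.sum_le_sum h2).trans ?_
      rw [Finset.sum_add_distrib, Finset.sum_const, Finset.card_range, nsmul_eq_mul,
        Finset.sum_ite_eq']
      split_ifs
      · exact le_rfl
      · linarith
    · push Not at hex
      have h2 : ∀ m ∈ Finset.range N, f (pt i L a m - x) ≤ η := fun m _ => hη _ (hex m)
      refine (Finset.sum_le_sum h2).trans ?_
      rw [Finset.sum_const, Finset.card_range, nsmul_eq_mul]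
      linarith
  calc (N : ℝ)⁻¹ * ∑ m ∈ Finset.range N, f (pt i L a m - x) ≤ (N : ℝ)⁻¹ * (N * η + F) :=
        mul_le_mul_of_nonneg_left h1 (by positivity)
    _ = η + F / N := by field_simp

section

variable {Ω : Type*} [MeasurableSpace Ω] {P : Measure Ω} {X : E d → Ω → ℝ}

/-- the averages as linear combinations -/
noncomputable def fav (i : Fin d) (L : ℝ) (N : ℕ) (a : ℝ) : E d →₀ ℝ :=
  ∑ m ∈ Finset.range N, Finsupp.single (pt i L a m) (N : ℝ)⁻¹

omit [MeasurableSpace Ω] in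
theorem lin_zero (w : Ω) : lin X (0 : E d →₀ ℝ) w = 0 := by simp [lin]

omit [MeasurableSpace Ω] in
theorem lin_sum {ι : Type*} (s : Finset ι) (f : ι → E d →₀ ℝ) (w : Ω) :
    lin X (∑ m ∈ s, f m) w = ∑ m ∈ s, lin X (f m) w := by
  classical
  induction s using Finset.induction with
  | empty => simp [lin_zero]
  | insert a s ha ih => rw [Finset.sum_insert ha, Finset.sum_insert ha, lin_add, ih]

omit [MeasurableSpace Ω] in
theorem lin_smul (c : ℝ) (f : E d →₀ ℝ) (w : Ω) : lin X (c • f) w = c * lin X f w := by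
  unfold lin
  rw [Finsupp.sum_smul_index (by simp), Finsupp.mul_sum]
  apply Finsupp.sum_congr
  intro x _
  ring

omit [MeasurableSpace Ω] in
theorem lin_fav (i : Fin d) (L : ℝ) (N : ℕ) (a : ℝ) (w : Ω) :
    lin X (fav i L N a) w = ∑ m ∈ Finset.range N, (N : ℝ)⁻¹ * X (pt i L a m) w := by
  unfold fav
  rw [lin_sum]
  exact Finset.sum_congr rfl fun m _ => lin_single _ _ _

theorem memLp_lin (hg : IsGaussianProcess X P) (f : E d →₀ ℝ) : MemLp (lin X f) 2 P :=
  ((isGaussianProcess_lin hg).hasGaussianLaw_eval f).memLp_two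

theorem memLp_X (hg : IsGaussianProcess X P) (x : E d) : MemLp (X x) 2 P :=
  (hg.hasGaussianLaw_eval x).memLp_two

theorem cov_fav (hg : IsGaussianProcess X P) (i : Fin d) (L : ℝ) (N : ℕ) (a : ℝ)
    {Z : Ω → ℝ} (hZ : MemLp Z 2 P) : cov[lin X (fav i L N a), Z; P] =
      (N : ℝ)⁻¹ * ∑ m ∈ Finset.range N, cov[X (pt i L a m), Z; P] := by
  have := hg.isProbabilityMeasure
  have e : lin X (fav i L N a) = fun w => ∑ m ∈ Finset.range N, (N : ℝ)⁻¹ * X (pt i L a m) w := by
    ext w; exact lin_fav i L N a w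
  rw [e, covariance_fun_sum_left' (fun m _ => (memLp_X hg _).const_mul _) hZ, Finset.mul_sum]
  exact Finset.sum_congr rfl fun m _ => covariance_const_mul_left _

/-- Estimate of the covariances with the averages. -/
theorem cov_fav_est (hg : IsGaussianProcess X P) {f : E d → ℝ} {F η ρ L s κ : ℝ} {i : Fin d}
    (hX : ∀ x y, cov[X x, X y; P] = f (x - y) + s * wave κ i (x - y))
    (hf0 : ∀ x, 0 ≤ f x) (hF : ∀ x, f x ≤ F)
    (hη : ∀ x, ρ ≤ ‖x‖ → f x ≤ η) (hη0 : 0 ≤ η) (hF0 : 0 ≤ F) (hL0 : 0 < L) (hL : 2 * ρ ≤ L)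
    {l : ℕ} (hl : κ * L = l * (2 * π)) {N : ℕ} (hN : 0 < N) :
    (∀ a y, |cov[lin X (fav i L N a), X y; P] - s * cos (κ * (a - y i))| ≤ η + F / N) ∧
    (∀ a b, |cov[lin X (fav i L N a), lin X (fav i L N b); P] - s * cos (κ * (a - b))| ≤
      η + F / N) := by
  have hN' : (0 : ℝ) < N := by exact_mod_cast hN
  have hp := hg.isProbabilityMeasure
  have h1 : ∀ a y, |cov[lin X (fav i L N a), X y; P] - s * cos (κ * (a - y i))| ≤ η + F / N := by
    intro a y
    rw [cov_fav hg i L N a (memLp_X hg y)]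
    have h2 : ∀ m ∈ Finset.range N, cov[X (pt i L a m), X y; P] =
        f (pt i L a m - y) + s * cos (κ * (a - y i)) := by
      intro m _
      rw [hX, wave, PiLp.sub_apply, pt_apply]
      congr 2
      have h3 : κ * (m * L + a - y i) = κ * (a - y i) + ((m * l : ℕ) : ℝ) * (2 * π) := by
        push_cast
        linear_combination (m : ℝ) * hl
      rw [h3, cos_add_nat_mul_two_pi]
    rw [Finset.sum_congr rfl h2, Finset.sum_add_distrib, Finset.sum_const, Finset.card_range,
      nsmul_eq_mul, mul_add, inv_mul_cancel_left₀ hN'.ne', add_sub_cancel_right,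
      abs_of_nonneg (mul_nonneg (by positivity) (Finset.sum_nonneg fun m _ => hf0 _))]
    exact avg_small hF hη hη0 hF0 hL0 hL hN i a y
  refine ⟨h1, fun a b => ?_⟩
  rw [covariance_comm, cov_fav hg i L N b (memLp_lin hg _)]
  have h2 : (N : ℝ)⁻¹ * ∑ m ∈ Finset.range N, cov[X (pt i L b m), lin X (fav i L N a); P] -
      s * cos (κ * (a - b)) = (N : ℝ)⁻¹ * ∑ m ∈ Finset.range N,
        (cov[lin X (fav i L N a), X (pt i L b m); P] - s * cos (κ * (a - pt i L b m i))) := by
    have h3 : ∀ m ∈ Finset.range N,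
        (cov[lin X (fav i L N a), X (pt i L b m); P] - s * cos (κ * (a - pt i L b m i))) =
        cov[X (pt i L b m), lin X (fav i L N a); P] - s * cos (κ * (a - b)) := by
      intro m _
      rw [covariance_comm, pt_apply]
      congr 2
      have h3 : κ * (a - (m * L + b)) = κ * (a - b) - ((m * l : ℕ) : ℝ) * (2 * π) := by
        push_cast
        linear_combination (-(m : ℝ)) * hl
      rw [h3, cos_sub_nat_mul_two_pi]
    rw [Finset.sum_congr rfl h3, Finset.sum_sub_distrib, Finset.sum_const, Finset.card_range,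
      nsmul_eq_mul, mul_sub (N : ℝ)⁻¹, inv_mul_cancel_left₀ hN'.ne']
  rw [h2, abs_mul, abs_of_pos (by positivity)]
  calc (N : ℝ)⁻¹ * |∑ m ∈ Finset.range N,
        (cov[lin X (fav i L N a), X (pt i L b m); P] - s * cos (κ * (a - pt i L b m i)))|
      ≤ (N : ℝ)⁻¹ * ∑ m ∈ Finset.range N, (η + F / N) := by
        apply mul_le_mul_of_nonneg_left _ (by positivity)
        refine (Finset.abs_sum_le_sum_abs _ _).trans ?_
        exact Finset.sum_le_sum fun m _ => h1 a (pt i L b m)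
    _ = η + F / N := by
        rw [Finset.sum_const, Finset.card_range, nsmul_eq_mul, inv_mul_cancel_left₀ hN'.ne']

theorem cov_bil {A1 A2 A3 B1 B2 B3 : Ω → ℝ} [IsProbabilityMeasure P] (a1 a2 b1 b2 : ℝ)
    (hA1 : MemLp A1 2 P) (hA2 : MemLp A2 2 P) (hA3 : MemLp A3 2 P)
    (hB1 : MemLp B1 2 P) (hB2 : MemLp B2 2 P) (hB3 : MemLp B3 2 P) :
    cov[fun w => A1 w + a1 * A2 w + a2 * A3 w, fun w => B1 w + b1 * B2 w + b2 * B3 w; P] =
      cov[A1, B1; P] + b1 * cov[A1, B2; P] + b2 * cov[A1, B3; P] +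
      a1 * (cov[A2, B1; P] + b1 * cov[A2, B2; P] + b2 * cov[A2, B3; P]) +
      a2 * (cov[A3, B1; P] + b1 * cov[A3, B2; P] + b2 * cov[A3, B3; P]) := by
  have hr : ∀ {Z : Ω → ℝ}, MemLp Z 2 P → cov[Z, fun w => B1 w + b1 * B2 w + b2 * B3 w; P] =
      cov[Z, B1; P] + b1 * cov[Z, B2; P] + b2 * cov[Z, B3; P] := by
    intro Z hZ
    have m2 : MemLp (fun w => b1 * B2 w) 2 P := hB2.const_mul b1
    have m3 : MemLp (fun w => b2 * B3 w) 2 P := hB3.const_mul b2
    have m12 : MemLp (fun w => B1 w + b1 * B2 w) 2 P := hB1.add m2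
    have e1 : cov[Z, fun w => B1 w + b1 * B2 w + b2 * B3 w; P] =
      cov[Z, fun w => B1 w + b1 * B2 w; P] + cov[Z, fun w => b2 * B3 w; P] :=
      covariance_add_right hZ m12 m3
    have e2 : cov[Z, fun w => B1 w + b1 * B2 w; P] = cov[Z, B1; P] + cov[Z, fun w => b1 * B2 w; P] :=
      covariance_add_right hZ hB1 m2
    rw [e1, e2, covariance_const_mul_right, covariance_const_mul_right]
  have m2 : MemLp (fun w => a1 * A2 w) 2 P := hA2.const_mul a1
  have m3 : MemLp (fun w => a2 * A3 w) 2 P := hA3.const_mul a2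
  have m12 : MemLp (fun w => A1 w + a1 * A2 w) 2 P := hA1.add m2
  have mB : MemLp (fun w => B1 w + b1 * B2 w + b2 * B3 w) 2 P :=
    (hB1.add (hB2.const_mul b1)).add (hB3.const_mul b2)
  have e1 : cov[fun w => A1 w + a1 * A2 w + a2 * A3 w, fun w => B1 w + b1 * B2 w + b2 * B3 w; P] =
      cov[fun w => A1 w + a1 * A2 w, fun w => B1 w + b1 * B2 w + b2 * B3 w; P] +
      cov[fun w => a2 * A3 w, fun w => B1 w + b1 * B2 w + b2 * B3 w; P] :=
    covariance_add_left m12 m3 mB
  have e2 : cov[fun w => A1 w + a1 * A2 w, fun w => B1 w + b1 * B2 w + b2 * B3 w; P] =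
      cov[A1, fun w => B1 w + b1 * B2 w + b2 * B3 w; P] +
      cov[fun w => a1 * A2 w, fun w => B1 w + b1 * B2 w + b2 * B3 w; P] :=
    covariance_add_left hA1 m2 mB
  rw [e1, e2, covariance_const_mul_left, covariance_const_mul_left, hr hA1, hr hA2, hr hA3]

end

end Pool.Agent.Y980.ID
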