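import Pool.Agent.Y980.ID.NonDiv

/-!
# The criterion with a choice of `n`
-/

set_option autoImplicit false

namespace Pool.Agent.Y980.ID

open MeasureTheory ProbabilityTheory Filter Topology Real

theorem exists_n {a c : ℝ} (ha : 0 < a) (hc : 0 < c) : ∃ n : ℕ, 0 < n ∧
    4 * exp (-((n * a - 1) ^ 2 / 8)) ≤ (c / (8 * n)) ^ n / 2 := by
  have h1 : Tendsto (fun x : ℝ => x ^ 1 * exp (-x)) atTop (𝓝 0) :=
    tendsto_pow_mul_exp_neg_atTop_nhds_zero 1
  have h2 : Tendsto (fun n : ℕ => a ^ 2 / 8 * (n : ℝ)) atTop atTop :=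
    tendsto_natCast_atTop_atTop.const_mul_atTop (by positivity)
  have h3 := h1.comp h2
  have hpos : 0 < a ^ 2 / 8 * (c / 64 * exp (-(2 * a / 8))) := by positivity
  obtain ⟨n, hn, hn0⟩ := ((h3.eventually (gt_mem_nhds hpos)).and (eventually_gt_atTop 0)).exists
  refine ⟨n, hn0, ?_⟩
  simp only [Function.comp_apply, pow_one] at hn
  have hn0' : (0 : ℝ) < n := by exact_mod_cast hn0
  have h4 : (n : ℝ) * exp (-(a ^ 2 / 8 * n)) ≤ c / 64 * exp (-(2 * a / 8)) := by
    have h5 : a ^ 2 / 8 * (n * exp (-(a ^ 2 / 8 * n))) ≤ a ^ 2 / 8 * (c / 64 * exp (-(2 * a / 8))) := by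
      linarith
    exact le_of_mul_le_mul_left h5 (by positivity)
  have h5 : exp (-((n * a ^ 2 - 2 * a) / 8)) ≤ c / (64 * n) := by
    have e1 : exp (-((n * a ^ 2 - 2 * a) / 8)) = exp (-(a ^ 2 / 8 * n)) * exp (2 * a / 8) := by
      rw [← exp_add]; congr 1; ring
    have e2 : exp (-(2 * a / 8)) * exp (2 * a / 8) = 1 := by rw [← exp_add]; simp
    rw [e1, le_div_iff₀ (by positivity)]
    have h6 := mul_le_mul_of_nonneg_right h4 (exp_pos (2 * a / 8)).le
    have h7 : c / 64 * exp (-(2 * a / 8)) * exp (2 * a / 8) = c / 64 := by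
      rw [mul_assoc, e2, mul_one]
    rw [h7] at h6
    linarith
  have h6 : exp (-((n * a - 1) ^ 2 / 8)) ≤ (exp (-((n * a ^ 2 - 2 * a) / 8))) ^ n := by
    rw [← exp_nat_mul]
    apply exp_le_exp.2
    nlinarith
  have h7 : (exp (-((n * a ^ 2 - 2 * a) / 8))) ^ n ≤ (c / (64 * n)) ^ n :=
    pow_le_pow_left₀ (exp_pos _).le h5 n
  have h8 : (c / (64 * n)) ^ n = (c / (8 * n)) ^ n * (1 / 8) ^ n := by
    rw [← mul_pow]; congr 1; field_simp; norm_num
  have h9 : ((1 : ℝ) / 8) ^ n ≤ 1 / 8 := by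
    have := pow_le_pow_of_le_one (show (0 : ℝ) ≤ 1 / 8 by norm_num) (by norm_num) hn0
    simpa using this
  have h10 : 0 < (c / (8 * n)) ^ n := by positivity
  calc 4 * exp (-((n * a - 1) ^ 2 / 8)) ≤ 4 * ((c / (8 * n)) ^ n * (1 / 8) ^ n) := by
        rw [← h8]; linarith [h6.trans h7]
    _ ≤ 4 * ((c / (8 * n)) ^ n * (1 / 8)) := by
        have := mul_le_mul_of_nonneg_left h9 h10.le
        linarith
    _ = (c / (8 * n)) ^ n / 2 := by ring

/-- A law which almost does not charge the negative half line, has almost Gaussian right tails and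
is spread is not infinitely divisible. -/
theorem not_div {c : ℝ} (hc : 0 < c) : ∃ n : ℕ, 0 < n ∧ ∃ η δ : ℝ, 0 < η ∧ 0 < δ ∧ δ ≤ 1 ∧
    ∀ μ : Measure ℝ, μ (Set.Iio (-δ)) ≤ ENNReal.ofReal η →
      (∀ t : ℝ, 0 ≤ t → μ (Set.Ioi t) ≤ ENNReal.ofReal (4 * exp (-((t - 1) ^ 2 / 8)) + η)) →
      ENNReal.ofReal c ≤ μ (Set.Iic 3) → ENNReal.ofReal c ≤ μ (Set.Ici 5) →
      ∀ ν : Measure ℝ, IsProbabilityMeasure ν → μ ≠ convPow n ν := by
  obtain ⟨n, hn, hexp⟩ := exists_n (show 0 < c / 24 by positivity) hc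
  have hn0 : (1 : ℝ) ≤ n := by exact_mod_cast hn
  refine ⟨n, hn, (c / (8 * n)) ^ n / 2, min 1 (c / 24), by positivity, by positivity,
    min_le_left _ _, ?_⟩
  intro μ h1 h2 h3 h4 ν hν
  have hpow : 0 < (c / (8 * n)) ^ n := by positivity
  refine not_convPow hn (a := c / 24) (δ := min 1 (c / 24)) (c := c) (by positivity)
    (by positivity) ?_ (min_le_left _ _) hc (by linarith) ?_ ?_ h3 h4
  · refine (min_le_right _ _).trans ?_
    have : 0 < c / 24 := by positivity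
    nlinarith
  · exact h1.trans (ENNReal.ofReal_le_ofReal (by linarith))
  · exact (h2 (n * (c / 24)) (by positivity)).trans (ENNReal.ofReal_le_ofReal (by linarith))

end Pool.Agent.Y980.ID
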