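import Pool.Agent.Y980.ID.Reg
import Pool.Agent.Y980.ID.NonDiv2

/-!
# The logarithm of the total mass is not always infinitely divisible
-/

set_option autoImplicit false

namespace Pool.Agent.Y980.ID

open MeasureTheory ProbabilityTheory Filter Topology Real BoundedContinuousFunction
open scoped ENNReal

variable {d : ℕ}

theorem convPow_affine {n : ℕ} (hn : 0 < n) (ν : Measure ℝ) [IsProbabilityMeasure ν] (a σ : ℝ) :
    (convPow n ν).map (fun y => (y + a) / σ) = convPow n (ν.map (fun y => (y + a / n) / σ)) := by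
  have hm : Measurable (fun y : ℝ => (y + a / n) / σ) := by fun_prop
  have hp := Measure.isProbabilityMeasure_map (μ := ν) hm.aemeasurable
  have h1 : Measure.pi (fun _ : Fin n => ν.map (fun y => (y + a / n) / σ)) =
      (Measure.pi (fun _ : Fin n => ν)).map (fun x i => (x i + a / n) / σ) :=
    (Measure.pi_map_pi (μ := fun _ : Fin n => ν) (f := fun _ y => (y + a / n) / σ)
      (fun _ => hm.aemeasurable)).symm
  unfold convPow
  rw [h1, Measure.map_map (by fun_prop) (measurable_sum n),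
    Measure.map_map (measurable_sum n) (by fun_prop)]
  congr 1
  ext x
  simp only [Function.comp_apply]
  rw [← Finset.sum_div, Finset.sum_add_distrib, Finset.sum_const, Finset.card_univ,
    Fintype.card_fin, nsmul_eq_mul]
  have : (n : ℝ) ≠ 0 := by positivity
  rw [mul_div_cancel₀ _ this]

theorem limit_bounds {η : ℕ → Measure ℝ} {ζ : Measure ℝ} [IsProbabilityMeasure ζ] {σ δ η₁ : ℝ}
    (hb : ∀ᶠ k in atTop, Bounds (η k) σ δ η₁)
    (hlim : ∀ f : ℝ →ᵇ ℝ, Tendsto (fun k => ∫ x, f x ∂(η k)) atTop (𝓝 (∫ x, f x ∂ζ))) :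
    Bounds ζ σ δ η₁ := by
  obtain ⟨N, hN⟩ := eventually_atTop.1 hb
  have hb' : ∀ k, Bounds (η (k + N)) σ δ η₁ := fun k => hN _ (by omega)
  set p : ℕ → ProbabilityMeasure ℝ := fun k => ⟨η (k + N), (hb' k).prob⟩ with hp
  set z : ProbabilityMeasure ℝ := ⟨ζ, inferInstance⟩ with hz
  have ht : Tendsto p atTop (𝓝 z) := by
    rw [ProbabilityMeasure.tendsto_iff_forall_integral_tendsto]
    intro f
    exact (tendsto_add_atTop_iff_nat N).2 (hlim f)
  have hopen : ∀ (G : Set ℝ) (b : ℝ≥0∞), IsOpen G → (∀ k, η (k + N) G ≤ b) → ζ G ≤ b := by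
    intro G b hG h
    have h1 := ProbabilityMeasure.le_liminf_measure_open_of_tendsto ht hG
    refine h1.trans ?_
    refine liminf_le_of_frequently_le' (Frequently.of_forall fun k => ?_)
    exact h k
  have hclosed : ∀ (F : Set ℝ) (b : ℝ≥0∞), IsClosed F → (∀ k, b ≤ η (k + N) F) → b ≤ ζ F := by
    intro F b hF h
    have h1 := ProbabilityMeasure.limsup_measure_closed_le_of_tendsto ht hF
    refine le_trans ?_ h1
    refine le_limsup_of_frequently_le' (Frequently.of_forall fun k => ?_)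
    exact h k
  exact ⟨inferInstance, hopen _ _ isOpen_Iio fun k => (hb' k).low,
    fun t ht => hopen _ _ isOpen_Ioi fun k => (hb' k).up t ht,
    hclosed _ _ isClosed_Iic fun k => (hb' k).three,
    hclosed _ _ isClosed_Ici fun k => (hb' k).five⟩

/-- a law with the four bounds does not have an infinitely divisible logarithm -/
theorem not_infDiv_of_bounds {c : ℝ} (hc : c = min (1 / 4) (q9 / 2)) {n : ℕ} (hn : 0 < n)
    {ηn δ η₁ σ : ℝ} (hσ : 0 < σ)
    (h : ∀ μ : Measure ℝ, μ (Set.Iio (-δ)) ≤ ENNReal.ofReal ηn →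
      (∀ t : ℝ, 0 ≤ t → μ (Set.Ioi t) ≤ ENNReal.ofReal (4 * exp (-((t - 1) ^ 2 / 8)) + ηn)) →
      ENNReal.ofReal c ≤ μ (Set.Iic 3) → ENNReal.ofReal c ≤ μ (Set.Ici 5) →
      ∀ ν : Measure ℝ, IsProbabilityMeasure ν → μ ≠ convPow n ν)
    (hη₁0 : 0 ≤ η₁) (h1 : η₁ ≤ ηn / 2) (h2 : η₁ ≤ 1 / 8) (h3 : η₁ ≤ q9 / 2)
    {ζ : Measure ℝ} (B : Bounds ζ σ δ η₁) : ¬ IsInfDiv (ζ.map log) := by
  intro hid
  obtain ⟨ν', hν', he⟩ := hid n hn
  have hprob := B.prob
  have he' : ζ.map log = convPow n ν' := he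
  have hφ : Measurable (fun y : ℝ => (y + σ ^ 2 / 2) / σ) := by fun_prop
  have h4 := convPow_affine hn ν' (σ ^ 2 / 2) σ
  rw [← he', Measure.map_map hφ measurable_log] at h4
  set ψ : ℝ → ℝ := (fun y : ℝ => (y + σ ^ 2 / 2) / σ) ∘ log with hψ
  have hψm : Measurable ψ := hφ.comp measurable_log
  have hlow : ζ (Set.Iio (exp (-δ * σ - σ ^ 2 / 2))) ≤ ENNReal.ofReal η₁ := B.low
  have hψ1 : ∀ z : ℝ, 0 < z → ∀ t : ℝ, ψ z < t ↔ z < exp (t * σ - σ ^ 2 / 2) := by
    intro z hz t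
    simp only [hψ, Function.comp_apply]
    rw [div_lt_iff₀ hσ, ← log_lt_iff_lt_exp hz]
    constructor <;> intro h <;> linarith
  have hpos : ∀ z : ℝ, ¬ z < exp (-δ * σ - σ ^ 2 / 2) → 0 < z := fun z hz =>
    (exp_pos _).trans_le (not_lt.1 hz)
  refine h (ζ.map ψ) ?_ (fun t ht => ?_) ?_ ?_ _
    (Measure.isProbabilityMeasure_map (by fun_prop)) h4
  · rw [Measure.map_apply hψm measurableSet_Iio]
    refine (measure_mono ?_).trans (hlow.trans (ENNReal.ofReal_le_ofReal (by linarith)))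
    intro z hz
    simp only [Set.mem_preimage, Set.mem_Iio] at hz ⊢
    by_contra hcon
    exact hcon ((hψ1 z (hpos z hcon) _).1 hz)
  · rw [Measure.map_apply hψm measurableSet_Ioi]
    have hsub : ψ ⁻¹' Set.Ioi t ⊆ Set.Ioi (exp (t * σ - σ ^ 2 / 2)) ∪
        Set.Iio (exp (-δ * σ - σ ^ 2 / 2)) := by
      intro z hz
      simp only [Set.mem_preimage, Set.mem_Ioi] at hz
      by_contra hcon
      simp only [Set.mem_union, not_or, Set.mem_Ioi, Set.mem_Iio] at hcon
      have hz0 := hpos z hcon.2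
      have h5 := not_lt.1 hcon.1
      have h6 : ψ z ≤ t := by
        simp only [hψ, Function.comp_apply]
        rw [div_le_iff₀ hσ]
        have := (log_le_iff_le_exp hz0).2 h5
        linarith
      linarith
    refine (measure_mono hsub).trans ((measure_union_le _ _).trans ?_)
    refine (add_le_add (B.up t ht) hlow).trans ?_
    rw [← ENNReal.ofReal_add (by positivity) hη₁0]
    exact ENNReal.ofReal_le_ofReal (by linarith)
  · rw [Measure.map_apply hψm measurableSet_Iic]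
    have hsub : Set.Iic (exp (3 * σ - σ ^ 2 / 2)) ⊆ ψ ⁻¹' Set.Iic 3 ∪
        Set.Iio (exp (-δ * σ - σ ^ 2 / 2)) := by
      intro z hz
      simp only [Set.mem_Iic] at hz
      by_contra hcon
      simp only [Set.mem_union, not_or, Set.mem_preimage, Set.mem_Iic, Set.mem_Iio] at hcon
      have hz0 := hpos z hcon.2
      apply hcon.1
      simp only [hψ, Function.comp_apply]
      rw [div_le_iff₀ hσ]
      have := (log_le_iff_le_exp hz0).2 hz
      linarith
    have h5 := (B.three.trans (measure_mono hsub)).trans (measure_union_le _ _)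
    have h6 := h5.trans (add_le_add_right hlow _)
    have h7 : ENNReal.ofReal c ≤ ENNReal.ofReal (1 / 2 - η₁) - ENNReal.ofReal η₁ := by
      rw [← ENNReal.ofReal_sub _ hη₁0]
      apply ENNReal.ofReal_le_ofReal
      rw [hc]
      have := min_le_left (1 / 4) (q9 / 2)
      linarith
    exact h7.trans (tsub_le_iff_right.2 h6)
  · rw [Measure.map_apply hψm measurableSet_Ici]
    have hsub : Set.Ici (exp (5 * σ - σ ^ 2 / 2)) ⊆ ψ ⁻¹' Set.Ici 5 := by
      intro z hz
      simp only [Set.mem_Ici] at hz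
      have hz0 : 0 < z := (exp_pos _).trans_le hz
      simp only [hψ, Set.mem_preimage, Set.mem_Ici, Function.comp_apply]
      rw [le_div_iff₀ hσ]
      have := (le_log_iff_exp_le hz0).2 hz
      linarith
    refine le_trans ?_ (B.five.trans (measure_mono hsub))
    apply ENNReal.ofReal_le_ofReal
    rw [hc]
    have := min_le_right (1 / 4) (q9 / 2)
    linarith

theorem exists_radius (hd : 1 ≤ d) (M : ℝ) : ∃ r : ℝ, 0 < r ∧ M ≤ vB d r := by
  have hub := ub_pos (d := d)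
  set y := max 1 (M / ub d) with hy
  have hy1 : 1 ≤ y := le_max_left _ _
  refine ⟨4 * y, by linarith, ?_⟩
  unfold vB
  have e : 4 * y / 4 = y := by ring
  rw [e]
  have h1 : y ≤ y ^ d := le_self_pow₀ hy1 (by omega)
  have h2 : M ≤ y * ub d := by
    have := le_max_right 1 (M / ub d)
    rw [← hy, div_le_iff₀ hub] at this
    exact this
  nlinarith

theorem exp_sub_one_le {x : ℝ} (h0 : 0 ≤ x) (h1 : x ≤ 1 / 2) : exp x - 1 ≤ 2 * x := by
  have h2 := one_sub_le_exp_neg x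
  have h3 : exp x * exp (-x) = 1 := by rw [← exp_add]; simp
  have h4 := exp_pos x
  have h5 : exp x * (1 - x) ≤ 1 := by
    have := mul_le_mul_of_nonneg_left h2 h4.le
    linarith
  nlinarith

/-- **Main theorem.** -/
theorem main {d : ℕ} (hd : 1 ≤ d) {μ : ℝ} (hμ0 : 0 < μ) (hμ : μ < d) :
    ∃ g : E d → ℝ, Admissible g ∧ ∃ R : ℝ, 0 < R ∧ ∀ ζ : Measure ℝ, IsProbabilityMeasure ζ →
      IsTotalMassLaw g μ 0 R (fun _ => 1) ζ → ¬ IsInfDiv (ζ.map log) := by
  set c : ℝ := min (1 / 4) (q9 / 2) with hc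
  have hq := q9_pos
  have hc0 : 0 < c := by positivity
  obtain ⟨n, hn, ηn, δ, hηn, hδ, -, hnd⟩ := not_div hc0
  set η₁ : ℝ := min (ηn / 2) (min (1 / 8) (q9 / 2)) with hη₁
  have hη₁0 : 0 < η₁ := by positivity
  have a1 : η₁ ≤ ηn / 2 := min_le_left _ _
  have a2 : η₁ ≤ 1 / 8 := (min_le_right _ _).trans (min_le_left _ _)
  have a3 : η₁ ≤ q9 / 2 := (min_le_right _ _).trans (min_le_right _ _)
  have hC0 := C0_nonneg (d := d) hμ0.le
  obtain ⟨r, hr, hrv⟩ := exists_radius hd (max 2 (648 * C0 d μ / η₁))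
  have hv2 : 2 ≤ vB d r := (le_max_left _ _).trans hrv
  have hvC : 648 * C0 d μ / η₁ ≤ vB d r := (le_max_right _ _).trans hrv
  have hv0 : 0 < vB d r := by linarith
  -- the size of the wave
  have hσ : ∃ σ : ℝ, 1 ≤ σ ∧ vD d r * exp (-(σ / 4)) ≤ η₁ / 3 := by
    have h1 : Tendsto (fun σ : ℝ => vD d r * exp (-(σ / 4))) atTop (𝓝 (vD d r * 0)) := by
      apply Tendsto.const_mul
      apply tendsto_exp_atBot.comp
      apply tendsto_neg_atTop_atBot.comp
      exact tendsto_id.atTop_div_const (by norm_num)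
    rw [mul_zero] at h1
    obtain ⟨σ, h2, h3⟩ := ((h1.eventually (gt_mem_nhds (show 0 < η₁ / 3 by positivity))).and
      (eventually_ge_atTop 1)).exists
    exact ⟨σ, h3, h2.le⟩
  obtain ⟨σ, hσ1, hσv⟩ := hσ
  have hσ0 : 0 < σ := by linarith
  set η : ℝ := min (1 / 4) (min (2 * δ) (η₁ / 648)) with hη
  have hη0 : 0 < η := by positivity
  have b1 : η ≤ 1 / 4 := min_le_left _ _
  have b2 : η ≤ 2 * δ := (min_le_right _ _).trans (min_le_left _ _)
  have b3 : η ≤ η₁ / 648 := (min_le_right _ _).trans (min_le_right _ _)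
  have hb : 108 * ((exp η - 1) + exp η * C0 d μ / vB d r) + vD d r * exp (-(σ / 4)) ≤ η₁ := by
    have e1 := exp_sub_one_le hη0.le (by linarith)
    have e2 : exp η * C0 d μ / vB d r ≤ η₁ / 324 := by
      rw [div_le_iff₀ hη₁0] at hvC
      rw [div_le_iff₀ hv0]
      have e3 : exp η ≤ 2 := by linarith
      nlinarith
    linarith
  refine ⟨gA (σ ^ 2 / μ) r⁻¹ ⟨0, hd⟩, gA_admissible hd (by positivity) _ _, 4 * r, by linarith,
    fun ζ hζ hmass => ?_⟩
  obtain ⟨θ, hθ, ε, hε, hε0, ν, hν, hlim⟩ := hmass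
  have hcl := mult_tendsto hθ r⁻¹ (⟨0, hd⟩ : Fin d) hε hε0
  have hσ2 : 0 < 1 / (4 * σ) := by positivity
  have h1 := hcl.eventually (lt_mem_nhds (show 1 - min (1 / 4) (1 / (4 * σ)) < (1 : ℝ) by
    have : 0 < min (1 / 4) (1 / (4 * σ)) := by positivity
    linarith))
  have hB : ∀ᶠ k in atTop, Bounds (ν k) σ δ η₁ := by
    filter_upwards [h1] with k hk
    have m1 := min_le_left (1 / 4) (1 / (4 * σ))
    have m2 := min_le_right (1 / 4) (1 / (4 * σ))
    refine reg_bounds hd hμ0 hμ hσ0 hr hθ (hε k) rfl (by linarith) ?_ hη0 (by nlinarith)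
      (by linarith) (by nlinarith) hη₁0.le hb hv2 (hν k)
    have m3 : 1 - (∫ y : E d, ((ε k)⁻¹ ^ d * θ ((ε k)⁻¹ • y)) * cos (r⁻¹ * y ⟨0, hd⟩)) ≤
        1 / (4 * σ) := by linarith
    calc 1 / 2 * (1 - (∫ y : E d, ((ε k)⁻¹ ^ d * θ ((ε k)⁻¹ • y)) *
          cos (r⁻¹ * y ⟨0, hd⟩))) * σ ≤ 1 / 2 * (1 / (4 * σ)) * σ := by
          apply mul_le_mul_of_nonneg_right _ hσ0.le
          linarith
      _ = 1 / 8 := by field_simp; norm_num
  exact not_infDiv_of_bounds hc hn hσ0 hnd hη₁0.le a1 a2 a3 (limit_bounds hB hlim)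

end Pool.Agent.Y980.ID
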