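import Pool.Agent.Y980.ID.Defs
import Pool.Agent.Y980.ID.ExpInt

/-!
# The kernel `g0`
-/

set_option autoImplicit false

namespace Pool.Agent.Y980.ID

open MeasureTheory ProbabilityTheory Filter Topology Real

/-- the radial profile -/
noncomputable def prof (r : ℝ) : ℝ := 1 / 2 * ∫ v in Set.Ioi (1 : ℝ), exp (-(v * r ^ 2)) / v

/-- the kernel -/
noncomputable def g0 {d : ℕ} (x : E d) : ℝ := prof ‖x‖

theorem measurable_prof : Measurable prof := by
  unfold prof
  apply Measurable.const_mul
  have h : StronglyMeasurable (Function.uncurry (fun r v : ℝ => exp (-(v * r ^ 2)) / v)) := by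
    apply Measurable.stronglyMeasurable
    unfold Function.uncurry
    fun_prop
  exact h.integral_prod_right.measurable

theorem prof_nonneg (r : ℝ) : 0 ≤ prof r := mul_nonneg (by norm_num) (E1_nonneg _)

theorem prof_eq {r : ℝ} (hr : 0 < r) : prof r = max (log (1 / r)) 0 + H (r ^ 2) / 2 := by
  unfold prof
  rw [E1_scale (by positivity), E1_eq (by positivity)]
  have h1 : log (1 / r ^ 2) = 2 * log (1 / r) := by
    rw [← one_div_pow, log_pow]
    norm_num
  have h2 : max (2 * log (1 / r)) 0 = 2 * max (log (1 / r)) 0 := by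
    rw [mul_max_of_nonneg _ _ (by norm_num), mul_zero]
  rw [h1, h2]
  ring

theorem prof_le_exp {r : ℝ} (hr : 1 ≤ r) : prof r ≤ exp (-r ^ 2) / 2 := by
  unfold prof
  have := E1_le (s := r ^ 2) (by nlinarith)
  linarith

theorem exists_H_bound : ∃ C : ℝ, 0 < C ∧ ∀ s, |H s| ≤ C :=
  ⟨(2 * ∫ u, |J0 u|) + 1, by have := abs_H_le 0; have := abs_nonneg (H 0); linarith,
    fun s => (abs_H_le s).trans (by linarith)⟩

theorem integrableOn_prof {d : ℕ} (hd : 1 ≤ d) {μ : ℝ} (hμ0 : 0 < μ) (hμ : μ < d) :
    IntegrableOn (fun y : ℝ => y ^ (d - 1) • (exp (μ * prof y) - 1)) (Set.Ioi 0) := by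
  obtain ⟨C, hC0, hC⟩ := exists_H_bound
  have hm : Measurable (fun y : ℝ => y ^ (d - 1) • (exp (μ * prof y) - 1)) := by
    have := measurable_prof
    simp only [smul_eq_mul]
    fun_prop
  rw [← Set.Ioc_union_Ioi_eq_Ioi (zero_le_one : (0 : ℝ) ≤ 1)]
  apply IntegrableOn.union
  · have h1 : IntegrableOn (fun y : ℝ => exp (μ * C) * y ^ ((d : ℝ) - 1 - μ)) (Set.Ioc 0 1) := by
      apply Integrable.const_mul
      have := intervalIntegral.intervalIntegrable_rpow' (a := 0) (b := 1)
        (r := (d : ℝ) - 1 - μ) (by linarith)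
      exact (intervalIntegrable_iff_integrableOn_Ioc_of_le zero_le_one).1 this
    refine Integrable.mono' h1 hm.aestronglyMeasurable ?_
    refine (ae_restrict_iff' measurableSet_Ioc).2 (ae_of_all _ fun y hy => ?_)
    have hy0 : 0 < y := hy.1
    have h2 : 0 ≤ exp (μ * prof y) - 1 := by
      have := one_le_exp (mul_nonneg hμ0.le (prof_nonneg y))
      linarith
    rw [norm_eq_abs, smul_eq_mul, abs_of_nonneg (by positivity)]
    have h3 : exp (μ * prof y) ≤ exp (μ * C) * y ^ (-μ) := by
      rw [rpow_def_of_pos hy0, ← exp_add]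
      apply exp_le_exp.2
      have h4 : prof y ≤ -log y + C := by
        rw [prof_eq hy0]
        have h5 : max (log (1 / y)) 0 = -log y := by
          rw [one_div, log_inv]
          apply max_eq_left
          have := log_nonpos hy0.le hy.2
          linarith
        rw [h5]
        have := (abs_le.1 (hC (y ^ 2))).2
        linarith
      have := mul_le_mul_of_nonneg_left h4 hμ0.le
      linarith
    have e : (y : ℝ) ^ ((d : ℝ) - 1 - μ) = y ^ (d - 1) * y ^ (-μ) := by
      rw [← rpow_natCast y (d - 1), ← rpow_add hy0]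
      congr 1
      push_cast [Nat.cast_sub hd]
      ring
    rw [e]
    calc y ^ (d - 1) * (exp (μ * prof y) - 1) ≤ y ^ (d - 1) * (exp (μ * C) * y ^ (-μ)) := by
          apply mul_le_mul_of_nonneg_left _ (by positivity)
          linarith
      _ = _ := by ring
  · have h1 : IntegrableOn (fun y : ℝ => (μ * exp μ) * (exp (-y) * y ^ ((d : ℝ) - 1))) (Set.Ioi 1) := by
      apply Integrable.const_mul
      exact (GammaIntegral_convergent (s := (d : ℝ)) (by exact_mod_cast hd)).mono_set
        (Set.Ioi_subset_Ioi zero_le_one)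
    refine Integrable.mono' h1 hm.aestronglyMeasurable ?_
    refine (ae_restrict_iff' measurableSet_Ioi).2 (ae_of_all _ fun y hy => ?_)
    have hy1 : 1 < y := hy
    have hy0 : 0 < y := by linarith
    have h2 : 0 ≤ exp (μ * prof y) - 1 := by
      have := one_le_exp (mul_nonneg hμ0.le (prof_nonneg y))
      linarith
    rw [norm_eq_abs, smul_eq_mul, abs_of_nonneg (by positivity)]
    have e : (y : ℝ) ^ ((d : ℝ) - 1) = y ^ (d - 1) := by
      rw [← rpow_natCast y (d - 1)]
      congr 1
      push_cast [Nat.cast_sub hd]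
      ring
    rw [e]
    have h3 : prof y ≤ exp (-y) := by
      refine (prof_le_exp hy1.le).trans ?_
      have h4 : exp (-y ^ 2) ≤ exp (-y) := exp_le_exp.2 (by nlinarith)
      have := exp_pos (-y ^ 2)
      linarith
    have h4 : exp (μ * prof y) - 1 ≤ μ * exp (-y) * exp μ := by
      have h5 : prof y ≤ 1 := h3.trans (exp_le_one_iff.2 (by linarith))
      have h6 : exp (μ * prof y) - 1 ≤ μ * prof y * exp (μ * prof y) := by
        have := one_sub_le_exp_neg (μ * prof y)
        have h7 : exp (-(μ * prof y)) * exp (μ * prof y) = 1 := by rw [← exp_add]; simp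
        have h8 := exp_pos (μ * prof y)
        nlinarith
      refine h6.trans ?_
      have h7 : μ * prof y ≤ μ * exp (-y) := mul_le_mul_of_nonneg_left h3 hμ0.le
      have h8 : exp (μ * prof y) ≤ exp μ := exp_le_exp.2 (by nlinarith)
      have := exp_pos (-y)
      exact mul_le_mul h7 h8 (exp_pos _).le (by positivity)
    calc y ^ (d - 1) * (exp (μ * prof y) - 1) ≤ y ^ (d - 1) * (μ * exp (-y) * exp μ) :=
          mul_le_mul_of_nonneg_left h4 (by positivity)
      _ = _ := by ring

section

variable {d : ℕ}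

theorem measurable_g0 : Measurable (g0 (d := d)) := measurable_prof.comp measurable_norm

theorem g0_nonneg (x : E d) : 0 ≤ g0 x := prof_nonneg _

theorem g0_even (x : E d) : g0 (-x) = g0 x := by unfold g0; rw [norm_neg]

theorem nontrivial_E (hd : 1 ≤ d) : Nontrivial (E d) := by
  have : Nonempty (Fin d) := ⟨⟨0, hd⟩⟩
  infer_instance

theorem integrable_exp_g0 (hd : 1 ≤ d) {μ : ℝ} (hμ0 : 0 < μ) (hμ : μ < d) :
    Integrable (fun x : E d => exp (μ * g0 x) - 1) := by
  have := nontrivial_E hd
  have h := (integrable_fun_norm_addHaar (E := E d) volume (f := fun r => exp (μ * prof r) - 1)).2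
  apply h
  have e : Module.finrank ℝ (E d) = d := by simp
  rw [e]
  exact integrableOn_prof hd hμ0 hμ

theorem integrable_g0 (hd : 1 ≤ d) : Integrable (g0 (d := d)) := by
  have hd' : (1 : ℝ) ≤ d := by exact_mod_cast hd
  have h := (integrable_exp_g0 (d := d) hd (μ := 1 / 2) (by norm_num) (by linarith)).const_mul 2
  refine Integrable.mono' h measurable_g0.aestronglyMeasurable (ae_of_all _ fun x => ?_)
  rw [norm_eq_abs, abs_of_nonneg (g0_nonneg x)]
  have := add_one_le_exp (1 / 2 * g0 x)
  linarith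

/-- the continuous part of the kernel -/
noncomputable def h0 (x : E d) : ℝ := H (‖x‖ ^ 2) / 2

theorem continuous_h0 : Continuous (h0 (d := d)) := by
  have := continuous_H
  unfold h0
  fun_prop

theorem g0_eq {x : E d} (hx : x ≠ 0) : g0 x = max (log (1 / ‖x‖)) 0 + h0 x :=
  prof_eq (norm_pos_iff.2 hx)

theorem g0_le_exp {x : E d} (hx : 1 ≤ ‖x‖) : g0 x ≤ exp (-‖x‖ ^ 2) / 2 := prof_le_exp hx

end

end Pool.Agent.Y980.ID
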