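import Pool.Agent.Y980.ID.Conv
import Pool.Agent.Y980.Gauss

/-!
# First and second moments of the mass of a Gaussian field
-/

set_option autoImplicit false

namespace Pool.Agent.Y980.ID

open MeasureTheory ProbabilityTheory Filter Topology Real
open scoped ENNReal

/-- Chebyshev's inequality -/
theorem cheb {Ω : Type*} [MeasurableSpace Ω] {P : Measure Ω} [IsProbabilityMeasure P]
    {M : Ω → ℝ≥0∞} (hM : Measurable M) {v S : ℝ} (hv : 0 < v)
    (h1 : ∫⁻ w, M w ∂P = ENNReal.ofReal v) (h2 : ∫⁻ w, M w * M w ∂P ≤ ENNReal.ofReal S) :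
    P {w | M w < ENNReal.ofReal (v / 2)} ≤ ENNReal.ofReal (4 * (S - v ^ 2) / v ^ 2) := by
  have hset : MeasurableSet {w | M w < ENNReal.ofReal (v / 2)} :=
    measurableSet_lt hM measurable_const
  set A := {w | M w < ENNReal.ofReal (v / 2)} with hA
  have key : ∀ w, A.indicator (fun _ => ENNReal.ofReal (v ^ 2 / 4)) w + ENNReal.ofReal (2 * v) * M w ≤
      M w * M w + ENNReal.ofReal (v ^ 2) := by
    intro w
    rcases eq_or_ne (M w) ⊤ with h | h
    · rw [h]; simp
    · set m := (M w).toReal with hm
      have hm0 : 0 ≤ m := ENNReal.toReal_nonneg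
      have hMm : M w = ENNReal.ofReal m := (ENNReal.ofReal_toReal h).symm
      by_cases hw : w ∈ A
      · rw [Set.indicator_of_mem hw, hMm, ← ENNReal.ofReal_mul (by positivity),
          ← ENNReal.ofReal_mul hm0, ← ENNReal.ofReal_add (by positivity) (by positivity),
          ← ENNReal.ofReal_add (by positivity) (by positivity)]
        apply ENNReal.ofReal_le_ofReal
        have h3 : m < v / 2 := by
          have h4 : M w < ENNReal.ofReal (v / 2) := hw
          rw [hMm] at h4
          exact (ENNReal.ofReal_lt_ofReal_iff (by positivity)).1 h4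
        nlinarith
      · rw [Set.indicator_of_notMem hw, hMm, ← ENNReal.ofReal_mul (by positivity),
          ← ENNReal.ofReal_mul hm0, zero_add,
          ← ENNReal.ofReal_add (by positivity) (by positivity)]
        apply ENNReal.ofReal_le_ofReal
        nlinarith [sq_nonneg (m - v)]
  have h3 := lintegral_mono (μ := P) key
  rw [lintegral_add_left (measurable_const.indicator hset), lintegral_indicator_const hset,
    lintegral_const_mul _ hM, h1, lintegral_add_right _ measurable_const, lintegral_const,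
    measure_univ, mul_one] at h3
  have h4 := h3.trans (add_le_add_left h2 _)
  rw [← ENNReal.ofReal_mul (by positivity)] at h4
  rcases lt_or_ge S 0 with hS | hS
  · exfalso
    rw [ENNReal.ofReal_of_nonpos hS.le, zero_add] at h4
    have h5 : ENNReal.ofReal (2 * v * v) ≤ ENNReal.ofReal (v ^ 2) :=
      le_trans (le_add_left le_rfl) h4
    rw [ENNReal.ofReal_le_ofReal_iff (by positivity)] at h5
    nlinarith
  · rw [← ENNReal.ofReal_add hS (by positivity)] at h4
    have hfin : P A ≠ ⊤ := measure_ne_top _ _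
    rw [← ENNReal.ofReal_toReal hfin] at h4 ⊢
    rw [← ENNReal.ofReal_mul (by positivity), ← ENNReal.ofReal_add (by positivity) (by positivity),
      ENNReal.ofReal_le_ofReal_iff (by positivity)] at h4
    apply ENNReal.ofReal_le_ofReal
    rw [le_div_iff₀ (by positivity)]
    nlinarith

section

variable {Ω : Type*} [MeasurableSpace Ω] {P : Measure Ω} {d : ℕ} {Y : E d → Ω → ℝ}

/-- the density of the mass -/
noncomputable def dens (P : Measure Ω) (Y : E d → Ω → ℝ) (x : E d) (w : Ω) : ℝ≥0∞ :=
  ENNReal.ofReal (exp (Y x w - cov[Y x, Y x; P] / 2))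

/-- the mass of a set -/
noncomputable def mass (P : Measure Ω) (Y : E d → Ω → ℝ) (B : Set (E d)) (w : Ω) : ℝ≥0∞ :=
  ∫⁻ x in B, dens P Y x w

variable [IsProbabilityMeasure P] (hg : IsGaussianProcess Y P) (h0 : ∀ x, ∫ w, Y x w ∂P = 0)
  (hm : Measurable (Function.uncurry Y))

include hm h0 in
theorem cov_measurable : Measurable (fun x => cov[Y x, Y x; P]) := by
  have h : StronglyMeasurable (Function.uncurry (fun x w => Y x w * Y x w)) :=
    (hm.mul hm).stronglyMeasurable
  have h2 := (h.integral_prod_right (ν := P)).measurable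
  have e : (fun x => cov[Y x, Y x; P]) = fun x => ∫ w, Y x w * Y x w ∂P := by
    ext x
    unfold covariance
    simp only [h0, sub_zero]
  rw [e]
  exact h2

include hm h0 in
theorem dens_measurable : Measurable (Function.uncurry (dens P Y)) := by
  have h1 := cov_measurable (P := P) h0 hm
  unfold dens Function.uncurry
  apply Measurable.ennreal_ofReal
  apply measurable_exp.comp
  exact hm.sub ((h1.comp measurable_fst).div_const 2)

include hm h0 in
theorem mass_measurable (B : Set (E d)) : Measurable (mass P Y B) := by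
  have h := dens_measurable (P := P) h0 hm
  unfold mass
  exact h.lintegral_prod_left'

omit [IsProbabilityMeasure P] in
include hg h0 in
theorem dens_one (x : E d) : ∫⁻ w, dens P Y x w ∂P = 1 := by
  obtain ⟨h1, h2⟩ := exp_lin3 hg h0 x x x 1 0 0
  unfold dens
  have e : ∀ w, exp (Y x w - cov[Y x, Y x; P] / 2) =
      exp (-(cov[Y x, Y x; P] / 2)) * exp (1 * Y x w + 0 * Y x w + 0 * Y x w) := by
    intro w
    rw [← exp_add]; congr 1; ring
  simp_rw [e]
  rw [← ofReal_integral_eq_lintegral_ofReal (h1.const_mul _)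
    (ae_of_all _ fun w => by positivity), integral_const_mul, h2, ← exp_add]
  rw [ENNReal.ofReal_eq_one, exp_eq_one_iff]
  ring

omit [IsProbabilityMeasure P] in
include hg h0 in
theorem dens_two (x y : E d) : ∫⁻ w, dens P Y x w * dens P Y y w ∂P =
    ENNReal.ofReal (exp (cov[Y x, Y y; P])) := by
  obtain ⟨h1, h2⟩ := exp_lin3 hg h0 x y x 1 1 0
  unfold dens
  have e : ∀ w, ENNReal.ofReal (exp (Y x w - cov[Y x, Y x; P] / 2)) *
      ENNReal.ofReal (exp (Y y w - cov[Y y, Y y; P] / 2)) =
      ENNReal.ofReal (exp (-(cov[Y x, Y x; P] / 2) - cov[Y y, Y y; P] / 2) *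
        exp (1 * Y x w + 1 * Y y w + 0 * Y x w)) := by
    intro w
    rw [← ENNReal.ofReal_mul (exp_pos _).le, ← exp_add, ← exp_add]; congr 2; ring
  simp_rw [e]
  rw [← ofReal_integral_eq_lintegral_ofReal (h1.const_mul _)
    (ae_of_all _ fun w => by positivity), integral_const_mul, h2, ← exp_add]
  congr 2
  ring

include hg h0 hm in
theorem mass_one (B : Set (E d)) : ∫⁻ w, mass P Y B w ∂P = volume B := by
  have h := dens_measurable (P := P) h0 hm
  unfold mass
  rw [lintegral_lintegral_swap]
  · simp_rw [dens_one hg h0]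
    simp
  · exact (h.comp measurable_swap).aemeasurable

include hg h0 hm in
theorem mass_two (B : Set (E d)) : ∫⁻ w, mass P Y B w * mass P Y B w ∂P =
    ∫⁻ x in B, ∫⁻ y in B, ENNReal.ofReal (exp (cov[Y x, Y y; P])) := by
  have h := dens_measurable (P := P) h0 hm
  have hx : ∀ x, Measurable (dens P Y x) := fun x => h.of_uncurry_left
  have hw : ∀ w, Measurable (fun x => dens P Y x w) := fun w => h.of_uncurry_right
  have h1 : ∀ w, mass P Y B w * mass P Y B w =
      ∫⁻ x in B, dens P Y x w * mass P Y B w := by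
    intro w
    rw [lintegral_mul_const _ (hw w)]
    rfl
  simp_rw [h1]
  have hmm := mass_measurable (P := P) h0 hm B
  rw [lintegral_lintegral_swap]
  · refine lintegral_congr fun x => ?_
    have h2 : ∀ w, dens P Y x w * mass P Y B w = ∫⁻ y in B, dens P Y x w * dens P Y y w := by
      intro w
      rw [lintegral_const_mul _ (hw w)]
      rfl
    simp_rw [h2]
    rw [lintegral_lintegral_swap]
    · refine lintegral_congr fun y => ?_
      exact dens_two hg h0 x y
    · apply Measurable.aemeasurable
      exact ((hx x).comp measurable_fst).mul (h.comp measurable_swap)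
  · apply Measurable.aemeasurable
    exact (h.comp measurable_swap).mul (hmm.comp measurable_fst)

include hg h0 hm in
theorem mass_two_le {B : Set (E d)} {k : E d → ℝ} {η C : ℝ}
    (hcov : ∀ x y, cov[Y x, Y y; P] ≤ k (x - y) + η)
    (hk0 : ∀ x, 0 ≤ k x) (hkm : Measurable k)
    (hC : ∫⁻ x, ENNReal.ofReal (exp (k x) - 1) ≤ ENNReal.ofReal C) (hC0 : 0 ≤ C) {v : ℝ}
    (hv : 0 ≤ v) (hB : volume B = ENNReal.ofReal v) :
    ∫⁻ w, mass P Y B w * mass P Y B w ∂P ≤ ENNReal.ofReal (exp η * (v * (v + C))) := by
  rw [mass_two hg h0 hm]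
  have h1 : ∀ x, ∫⁻ y in B, ENNReal.ofReal (exp (cov[Y x, Y y; P])) ≤
      ENNReal.ofReal (exp η * (v + C)) := by
    intro x
    have h2 : ∀ y, ENNReal.ofReal (exp (cov[Y x, Y y; P])) ≤
        ENNReal.ofReal (exp η) * (1 + ENNReal.ofReal (exp (k (x - y)) - 1)) := by
      intro y
      have h3 : 0 ≤ exp (k (x - y)) - 1 := by
        have := one_le_exp (hk0 (x - y)); linarith
      rw [← ENNReal.ofReal_one, ← ENNReal.ofReal_add zero_le_one h3,
        ← ENNReal.ofReal_mul (exp_pos _).le]
      apply ENNReal.ofReal_le_ofReal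
      have h4 := exp_le_exp.2 (hcov x y)
      rw [exp_add] at h4
      linarith
    have hkm2 : Measurable (fun y : E d => ENNReal.ofReal (exp (k (x - y)) - 1)) := by fun_prop
    have hkm3 : Measurable (fun y : E d => (1 : ℝ≥0∞) + ENNReal.ofReal (exp (k (x - y)) - 1)) :=
      measurable_const.add hkm2
    refine (lintegral_mono h2).trans ?_
    rw [lintegral_const_mul _ hkm3, lintegral_add_left measurable_const,
      lintegral_const, Measure.restrict_apply_univ, one_mul, hB]
    have h3 : ∫⁻ y in B, ENNReal.ofReal (exp (k (x - y)) - 1) ≤ ENNReal.ofReal C := by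
      refine (setLIntegral_le_lintegral _ _).trans ?_
      rw [lintegral_sub_left_eq_self (fun z : E d => ENNReal.ofReal (exp (k z) - 1)) x]
      exact hC
    refine (mul_le_mul_right (add_le_add_right h3 _) _).trans ?_
    rw [← ENNReal.ofReal_add hv hC0, ← ENNReal.ofReal_mul (exp_pos _).le]
  refine (lintegral_mono h1).trans ?_
  rw [lintegral_const, Measure.restrict_apply_univ, hB, ← ENNReal.ofReal_mul (by positivity)]
  apply ENNReal.ofReal_le_ofReal
  apply le_of_eq
  ring

include hg h0 hm in
/-- the mass is not small -/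
theorem mass_lower {B : Set (E d)} {k : E d → ℝ} {η C : ℝ}
    (hcov : ∀ x y, cov[Y x, Y y; P] ≤ k (x - y) + η)
    (hk0 : ∀ x, 0 ≤ k x) (hkm : Measurable k)
    (hC : ∫⁻ x, ENNReal.ofReal (exp (k x) - 1) ≤ ENNReal.ofReal C) (hC0 : 0 ≤ C) {v : ℝ}
    (hv : 0 < v) (hB : volume B = ENNReal.ofReal v) :
    P {w | mass P Y B w < ENNReal.ofReal (v / 2)} ≤
      ENNReal.ofReal (4 * ((exp η - 1) + exp η * C / v)) := by
  have h1 := cheb (P := P) (mass_measurable (P := P) h0 hm B) hv
    ((mass_one hg h0 hm B).trans hB) (mass_two_le hg h0 hm hcov hk0 hkm hC hC0 hv.le hB)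
  refine h1.trans (ENNReal.ofReal_le_ofReal (le_of_eq ?_))
  field_simp
  ring

include hg h0 hm in
/-- the mass is not large -/
theorem mass_upper {B : Set (E d)} {v a : ℝ} (hB : volume B = ENNReal.ofReal v)
    (ha : 0 < a) :
    P {w | ENNReal.ofReal a ≤ mass P Y B w} ≤ ENNReal.ofReal (v / a) := by
  have h1 := mul_meas_ge_le_lintegral (μ := P) (mass_measurable (P := P) h0 hm B) (ENNReal.ofReal a)
  rw [mass_one hg h0 hm B, hB] at h1
  rw [ENNReal.ofReal_div_of_pos ha]
  rw [ENNReal.le_div_iff_mul_le (Or.inl (by simpa using ha)) (Or.inl ENNReal.ofReal_ne_top)]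
  rwa [mul_comm]

end

end Pool.Agent.Y980.ID
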