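import Mathlib

/-!
# A quantitative criterion for a law not to be an `n`-fold convolution power
-/

set_option autoImplicit false

namespace Pool.Agent.Y980.ID

open MeasureTheory ProbabilityTheory Filter Topology

/-- the law of the sum of `n` independent variables with law `ν` -/
noncomputable def convPow (n : ℕ) (ν : Measure ℝ) : Measure ℝ :=
  (Measure.pi (fun _ : Fin n => ν)).map (fun x => ∑ i, x i)

theorem measurable_sum (n : ℕ) : Measurable (fun x : Fin n → ℝ => ∑ i, x i) := by fun_prop

/-- if every summand is in `A` then the sum is in `B` -/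
theorem pow_le {n : ℕ} {ν : Measure ℝ} [IsProbabilityMeasure ν] {A B : Set ℝ}
    (hB : MeasurableSet B) (h : ∀ x : Fin n → ℝ, (∀ i, x i ∈ A) → ∑ i, x i ∈ B) :
    (ν A) ^ n ≤ convPow n ν B := by
  rw [convPow, Measure.map_apply (measurable_sum n) hB]
  have h1 : (Measure.pi (fun _ : Fin n => ν)) (Set.univ.pi fun _ => A) = (ν A) ^ n := by
    rw [Measure.pi_pi]
    simp
  rw [← h1]
  apply measure_mono
  intro x hx
  exact h x (fun i => hx i (Set.mem_univ i))

/-- truncation -/
noncomputable def trunc (a b : ℝ) (x : ℝ) : ℝ := (Set.Icc (-b) a).indicator id x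

theorem trunc_mem {a b : ℝ} (ha : 0 ≤ a) (hb : 0 ≤ b) (x : ℝ) :
    -b ≤ trunc a b x ∧ trunc a b x ≤ a := by
  unfold trunc
  by_cases h : x ∈ Set.Icc (-b) a
  · rw [Set.indicator_of_mem h]; exact h
  · rw [Set.indicator_of_notMem h]; constructor <;> linarith

theorem measurable_trunc (a b : ℝ) : Measurable (trunc a b) :=
  measurable_id.indicator measurableSet_Icc

theorem trunc_sq {a b : ℝ} (hb : 0 ≤ b) (hab : b ≤ a) (x : ℝ) :
    trunc a b x ^ 2 ≤ a * (trunc a b x + 2 * b) := by
  obtain ⟨h1, h2⟩ := trunc_mem (hb.trans hab) hb x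
  set t := trunc a b x
  rcases le_total 0 t with h | h
  · nlinarith
  · have : t ^ 2 ≤ b * (-t) := by nlinarith
    nlinarith

/-- Quantitative criterion. -/
theorem not_convPow {n : ℕ} (hn : 0 < n) {a δ c : ℝ} (ha : 0 < a) (hδ : 0 < δ) (hδn : δ ≤ n * a)
    (hδ1 : δ ≤ 1) (hc : 0 < c) (hac : 6 * a ≤ c / 4) {μ ν : Measure ℝ} [IsProbabilityMeasure ν]
    (h1 : (μ (Set.Iio (-δ))) ≤ ENNReal.ofReal ((c / (8 * n)) ^ n))
    (h2 : (μ (Set.Ioi (n * a))) ≤ ENNReal.ofReal ((c / (8 * n)) ^ n))
    (h3 : ENNReal.ofReal c ≤ μ (Set.Iic 3)) (h4 : ENNReal.ofReal c ≤ μ (Set.Ici 5)) :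
    μ ≠ convPow n ν := by
  intro hμ
  have hn0 : (0 : ℝ) < n := by exact_mod_cast hn
  set P := Measure.pi (fun _ : Fin n => ν) with hP
  set b := δ / n with hb
  have hb0 : 0 < b := by positivity
  have hba : b ≤ a := by rw [hb, div_le_iff₀ hn0]; linarith
  have hne : (Finset.univ : Finset (Fin n)).Nonempty := ⟨⟨0, hn⟩, Finset.mem_univ _⟩
  -- the tails of one summand
  have hroot : ∀ A : Set ℝ, (ν A) ^ n ≤ ENNReal.ofReal ((c / (8 * n)) ^ n) →
      ν A ≤ ENNReal.ofReal (c / (8 * n)) := by
    intro A hA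
    rw [ENNReal.ofReal_pow (by positivity)] at hA
    exact (ENNReal.pow_le_pow_left_iff hn.ne').1 hA
  have q1 : ν (Set.Iio (-b)) ≤ ENNReal.ofReal (c / (8 * n)) := by
    apply hroot
    refine le_trans (pow_le (B := Set.Iio (-δ)) measurableSet_Iio ?_) (hμ ▸ h1)
    intro x hx
    have : ∑ i, x i < ∑ _i : Fin n, (-b) := Finset.sum_lt_sum_of_nonempty hne fun i _ => hx i
    rw [Finset.sum_const, Finset.card_univ, Fintype.card_fin, nsmul_eq_mul, hb] at this
    have e : (n : ℝ) * -(δ / n) = -δ := by field_simp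
    rw [e] at this
    exact this
  have q2 : ν (Set.Ioi a) ≤ ENNReal.ofReal (c / (8 * n)) := by
    apply hroot
    refine le_trans (pow_le (B := Set.Ioi (n * a)) measurableSet_Ioi ?_) (hμ ▸ h2)
    intro x hx
    have : ∑ _i : Fin n, a < ∑ i, x i := Finset.sum_lt_sum_of_nonempty hne fun i _ => hx i
    rw [Finset.sum_const, Finset.card_univ, Fintype.card_fin, nsmul_eq_mul] at this
    exact this
  -- the exceptional event
  set E : Set (Fin n → ℝ) := {x | ∃ i, x i ∉ Set.Icc (-b) a} with hE
  have hEP : P E ≤ ENNReal.ofReal (c / 4) := by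
    have e1 : E ⊆ ⋃ i, ((fun x : Fin n → ℝ => x i) ⁻¹' (Set.Iio (-b) ∪ Set.Ioi a)) := by
      rintro x ⟨i, hi⟩
      rw [Set.mem_iUnion]
      refine ⟨i, ?_⟩
      rw [Set.mem_Icc, not_and_or, not_le, not_le] at hi
      exact hi
    refine (measure_mono e1).trans ((measure_iUnion_fintype_le _ _).trans ?_)
    have e2 : ∀ i : Fin n, P ((fun x : Fin n → ℝ => x i) ⁻¹' (Set.Iio (-b) ∪ Set.Ioi a)) ≤
        ENNReal.ofReal (c / (4 * n)) := by
      intro i
      have hm : MeasurableSet (Set.Iio (-b) ∪ Set.Ioi a) := measurableSet_Iio.union measurableSet_Ioi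
      rw [(measurePreserving_eval (fun _ : Fin n => ν) i).measure_preimage hm.nullMeasurableSet]
      refine (measure_union_le _ _).trans ((add_le_add q1 q2).trans ?_)
      rw [← ENNReal.ofReal_add (by positivity) (by positivity)]
      apply ENNReal.ofReal_le_ofReal
      apply le_of_eq
      field_simp
      norm_num
    refine (Finset.sum_le_sum fun i _ => e2 i).trans ?_
    rw [Finset.sum_const, Finset.card_univ, Fintype.card_fin, nsmul_eq_mul,
      ← ENNReal.ofReal_natCast, ← ENNReal.ofReal_mul (by positivity)]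
    apply ENNReal.ofReal_le_ofReal
    apply le_of_eq
    field_simp
  -- the truncated sum
  set W : Fin n → (Fin n → ℝ) → ℝ := fun i x => trunc a b (x i) with hW
  have hWm : ∀ i, Measurable (W i) := fun i => (measurable_trunc a b).comp (measurable_pi_apply i)
  have hWb : ∀ i x, |W i x| ≤ a := by
    intro i x
    obtain ⟨t1, t2⟩ := trunc_mem ha.le hb0.le (x i)
    rw [abs_le]
    constructor
    · simp only [hW]; linarith
    · exact t2
  have hWL : ∀ i, MemLp (W i) 2 P := fun i =>
    MemLp.of_bound (hWm i).aestronglyMeasurable a (Filter.Eventually.of_forall fun x => by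
      rw [Real.norm_eq_abs]; exact hWb i x)
  have hWint : ∀ i, Integrable (W i) P := fun i => (hWL i).integrable (by norm_num)
  have hind : iIndepFun W P := iIndepFun_pi (fun i => (measurable_trunc a b).aemeasurable)
  set w : ℝ := ∫ x, trunc a b x ∂ν with hw
  have hWmean : ∀ i, ∫ x, W i x ∂P = w := by
    intro i
    have h5 := integral_map (μ := P) (φ := Function.eval i) (measurable_pi_apply i).aemeasurable
      (f := trunc a b) (measurable_trunc a b).aestronglyMeasurable
    rw [hP, (measurePreserving_eval (fun _ : Fin n => ν) i).map_eq] at h5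
    exact h5.symm
  have hwb : -b ≤ w := by
    have h5 : ∫ _ : ℝ, -b ∂ν ≤ w := integral_mono (integrable_const _)
      (Integrable.of_bound (measurable_trunc a b).aestronglyMeasurable a
        (Filter.Eventually.of_forall fun x => by
          obtain ⟨t1, t2⟩ := trunc_mem ha.le hb0.le x
          rw [Real.norm_eq_abs, abs_le]
          constructor <;> linarith)) (fun x => (trunc_mem ha.le hb0.le x).1)
    simpa using h5
  set m : ℝ := n * w with hm
  set S : (Fin n → ℝ) → ℝ := ∑ i, W i with hS
  have hSL : MemLp S 2 P := memLp_finsetSum' _ fun i _ => hWL i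
  have hSmean : ∫ x, S x ∂P = m := by
    have : ∀ x, S x = ∑ i, W i x := fun x => by rw [hS, Finset.sum_apply]
    simp_rw [this]
    rw [integral_finsetSum _ fun i _ => hWint i]
    simp_rw [hWmean]
    rw [Finset.sum_const, Finset.card_univ, Fintype.card_fin, nsmul_eq_mul]
  have hvar : Var[S; P] ≤ a * (m + 2 * δ) := by
    rw [hS, IndepFun.variance_sum (fun i _ => hWL i) (fun i _ j _ hij => hind.indepFun hij)]
    have h5 : ∀ i ∈ (Finset.univ : Finset (Fin n)), Var[W i; P] ≤ a * (w + 2 * b) := by
      intro i _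
      refine (variance_le_expectation_sq (hWm i).aestronglyMeasurable).trans ?_
      have h6 : ∫ x, (W i x) ^ 2 ∂P ≤ ∫ x, a * (W i x + 2 * b) ∂P := by
        refine integral_mono (hWL i).integrable_sq (((hWint i).add (integrable_const _)).const_mul a)
          (fun x => trunc_sq hb0.le hba (x i))
      refine le_trans ?_ (h6.trans ?_)
      · exact le_of_eq rfl
      · rw [integral_const_mul, integral_add (hWint i) (integrable_const _), hWmean i]
        simp
    refine (Finset.sum_le_sum h5).trans ?_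
    rw [Finset.sum_const, Finset.card_univ, Fintype.card_fin, nsmul_eq_mul, hm, hb]
    apply le_of_eq
    field_simp
  have hmδ : -δ ≤ m := by
    have h5 : (n : ℝ) * (-b) ≤ n * w := mul_le_mul_of_nonneg_left hwb hn0.le
    have e : (n : ℝ) * (-b) = -δ := by rw [hb]; field_simp
    rw [e] at h5
    exact h5
  have hcheb : ∀ s : ℝ, 0 < s → P {x | s ≤ |S x - m|} ≤ ENNReal.ofReal (a * (m + 2 * δ) / s ^ 2) := by
    intro s hs
    have h5 := meas_ge_le_variance_div_sq hSL hs
    rw [hSmean] at h5
    exact h5.trans (ENNReal.ofReal_le_ofReal (div_le_div_of_nonneg_right hvar (by positivity)))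
  have hSE : ∀ x, x ∉ E → S x = ∑ i, x i := by
    intro x hx
    rw [hS, Finset.sum_apply]
    refine Finset.sum_congr rfl fun i _ => ?_
    have h5 : x i ∈ Set.Icc (-b) a := by
      by_contra hc
      exact hx ⟨i, hc⟩
    simp only [hW, trunc]
    rw [Set.indicator_of_mem h5]
    rfl
  have hfin : ∀ B : Set ℝ, MeasurableSet B → ∀ s : ℝ, 0 < s → (∀ y ∈ B, s ≤ |y - m|) →
      ENNReal.ofReal c ≤ μ B → c ≤ a * (m + 2 * δ) / s ^ 2 + c / 4 := by
    intro B hB s hs hBs hcB
    have h5 : μ B ≤ P {x | s ≤ |S x - m|} + P E := by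
      rw [hμ, convPow, Measure.map_apply (measurable_sum n) hB]
      refine le_trans (measure_mono ?_) (measure_union_le _ _)
      intro x hx
      by_cases hxE : x ∈ E
      · exact Or.inr hxE
      · left
        simp only [Set.mem_ofPred_eq]
        rw [hSE x hxE]
        exact hBs _ hx
    have h6 : 0 ≤ a * (m + 2 * δ) / s ^ 2 := by
      apply div_nonneg (mul_nonneg ha.le (by linarith)) (by positivity)
    have h7 := (hcB.trans h5).trans (add_le_add (hcheb s hs) hEP)
    rw [← ENNReal.ofReal_add h6 (by positivity)] at h7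
    exact (ENNReal.ofReal_le_ofReal_iff (by positivity)).1 h7
  rcases le_or_gt m 4 with h | h
  · have h5 := hfin (Set.Ici 5) measurableSet_Ici 1 one_pos (fun y hy => by
      have : (5 : ℝ) ≤ y := hy
      rw [abs_of_nonneg (by linarith)]
      linarith) h4
    have h6 : a * (m + 2 * δ) / 1 ^ 2 ≤ a * 6 := by
      rw [one_pow, div_one]
      exact mul_le_mul_of_nonneg_left (by linarith) ha.le
    linarith
  · have h5 := hfin (Set.Iic 3) measurableSet_Iic (m - 3) (by linarith) (fun y hy => by
      have : y ≤ (3 : ℝ) := hy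
      rw [abs_of_nonpos (by linarith)]
      linarith) h3
    have h6 : a * (m + 2 * δ) / (m - 3) ^ 2 ≤ a * 6 := by
      rw [div_le_iff₀ (by have : 0 < m - 3 := by linarith
                          positivity)]
      have h7 : m + 2 * δ ≤ 6 * (m - 3) ^ 2 := by nlinarith
      calc a * (m + 2 * δ) ≤ a * (6 * (m - 3) ^ 2) := mul_le_mul_of_nonneg_left h7 ha.le
        _ = a * 6 * (m - 3) ^ 2 := by ring
    linarith

end Pool.Agent.Y980.ID
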