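import Pool.Agent.Y980.ID.Kernel

/-!
# Positive definiteness of the kernel
-/

set_option autoImplicit false

namespace Pool.Agent.Y980.ID

open MeasureTheory ProbabilityTheory Filter Topology Real

variable {d : ℕ}

theorem norm_par (x y z : E d) :
    ‖x - z‖ ^ 2 + ‖y - z‖ ^ 2 = 2 * ‖z - (1 / 2 : ℝ) • (x + y)‖ ^ 2 + 1 / 2 * ‖x - y‖ ^ 2 := by
  have h1 := norm_sub_sq_real x z
  have h2 := norm_sub_sq_real y z
  have h3 := norm_sub_sq_real z ((1 / 2 : ℝ) • (x + y))
  have h4 := norm_sub_sq_real x y
  have h5 := norm_add_sq_real x y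
  rw [norm_smul, inner_smul_right, inner_add_right, norm_eq_abs, abs_of_pos (by norm_num),
    mul_pow, h5] at h3
  rw [real_inner_comm z x, real_inner_comm z y] at *
  nlinarith

theorem integral_gauss_pos {b : ℝ} (hb : 0 < b) : 0 < ∫ z : E d, exp (-b * ‖z‖ ^ 2) := by
  rw [GaussianFourier.integral_rexp_neg_mul_sq_norm hb]
  have := pi_pos
  positivity

theorem integrable_gauss {b : ℝ} (hb : 0 < b) : Integrable (fun z : E d => exp (-b * ‖z‖ ^ 2)) := by
  by_contra h
  have := integral_gauss_pos (d := d) hb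
  rw [integral_undef h] at this
  exact lt_irrefl _ this

theorem gauss_conv {v : ℝ} (x y z : E d) :
    exp (-(2 * v) * ‖x - z‖ ^ 2) * exp (-(2 * v) * ‖y - z‖ ^ 2) =
      exp (-(v * ‖x - y‖ ^ 2)) * exp (-(4 * v) * ‖z - (1 / 2 : ℝ) • (x + y)‖ ^ 2) := by
  rw [← exp_add, ← exp_add]
  congr 1
  have := norm_par x y z
  linear_combination (-(2 * v)) * this

/-- the Gaussian kernel is positive definite -/
theorem gauss_pd {v : ℝ} (hv : 0 < v) {f : E d → ℝ} (hf : Continuous f)
    (hc : HasCompactSupport f) :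
    0 ≤ ∫ p : E d × E d, f p.1 * exp (-(v * ‖p.1 - p.2‖ ^ 2)) * f p.2 := by
  have hfi : Integrable f := hf.integrable_of_hasCompactSupport hc
  set N := ∫ z : E d, exp (-(4 * v) * ‖z‖ ^ 2) with hN
  have hNpos : 0 < N := integral_gauss_pos (by linarith)
  have hI : ∀ m : E d, Integrable (fun z : E d => exp (-(4 * v) * ‖z - m‖ ^ 2)) := fun m =>
    (integrable_gauss (d := d) (b := 4 * v) (by linarith)).comp_sub_right m
  have hN' : ∀ m : E d, ∫ z : E d, exp (-(4 * v) * ‖z - m‖ ^ 2) = N := fun m =>
    integral_sub_right_eq_self (fun z : E d => exp (-(4 * v) * ‖z‖ ^ 2)) m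
  set F : E d × E d → E d → ℝ := fun p z => (f p.1 * exp (-(2 * v) * ‖p.1 - z‖ ^ 2)) *
    (f p.2 * exp (-(2 * v) * ‖p.2 - z‖ ^ 2)) with hF
  have hFe : ∀ p z, F p z = (f p.1 * exp (-(v * ‖p.1 - p.2‖ ^ 2)) * f p.2) *
      exp (-(4 * v) * ‖z - (1 / 2 : ℝ) • (p.1 + p.2)‖ ^ 2) := by
    intro p z
    have := gauss_conv (v := v) p.1 p.2 z
    simp only [hF]
    linear_combination (f p.1 * f p.2) * this
  have hint : ∀ p, ∫ z, F p z = (f p.1 * exp (-(v * ‖p.1 - p.2‖ ^ 2)) * f p.2) * N := by
    intro p
    simp_rw [hFe p]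
    rw [integral_const_mul, hN']
  have hFi : Integrable (Function.uncurry F) ((volume.prod volume).prod volume) := by
    rw [integrable_prod_iff]
    · refine ⟨ae_of_all _ fun p => ?_, ?_⟩
      · have : (fun z => Function.uncurry F (p, z)) = fun z =>
            (f p.1 * exp (-(v * ‖p.1 - p.2‖ ^ 2)) * f p.2) *
            exp (-(4 * v) * ‖z - (1 / 2 : ℝ) • (p.1 + p.2)‖ ^ 2) := by
          ext z; exact hFe p z
        rw [this]
        exact (hI _).const_mul _
      · have : (fun p : E d × E d => ∫ z, ‖Function.uncurry F (p, z)‖) = fun p =>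
            ‖f p.1‖ * ‖f p.2‖ * (exp (-(v * ‖p.1 - p.2‖ ^ 2)) * N) := by
          ext p
          have : (fun z => ‖Function.uncurry F (p, z)‖) = fun z =>
            (‖f p.1‖ * exp (-(v * ‖p.1 - p.2‖ ^ 2)) * ‖f p.2‖) *
            exp (-(4 * v) * ‖z - (1 / 2 : ℝ) • (p.1 + p.2)‖ ^ 2) := by
            ext z
            change ‖F p z‖ = _
            rw [hFe p z, norm_mul, norm_mul, norm_mul]
            simp only [norm_eq_abs, abs_exp]
          rw [this, integral_const_mul, hN']
          ring
        rw [this]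
        have h1 : Integrable (fun p : E d × E d => ‖f p.1‖ * ‖f p.2‖ * N) (volume.prod volume) :=
          (hfi.norm.mul_prod hfi.norm).mul_const N
        refine Integrable.mono' h1 ?_ (ae_of_all _ fun p => ?_)
        · apply Continuous.aestronglyMeasurable
          fun_prop
        · rw [norm_eq_abs, abs_of_nonneg (by positivity)]
          apply mul_le_mul_of_nonneg_left _ (by positivity)
          have : exp (-(v * ‖p.1 - p.2‖ ^ 2)) ≤ 1 := exp_le_one_iff.2 (by
            have : 0 ≤ v * ‖p.1 - p.2‖ ^ 2 := by positivity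
            linarith)
          nlinarith
    · apply Continuous.aestronglyMeasurable
      simp only [hF, Function.uncurry_def]
      fun_prop
  have hswap := integral_integral_swap hFi
  have h1 : ∫ p : E d × E d, f p.1 * exp (-(v * ‖p.1 - p.2‖ ^ 2)) * f p.2 =
      N⁻¹ * ∫ p : E d × E d, ∫ z, F p z := by
    simp_rw [hint]
    rw [integral_mul_const]
    field_simp
  rw [h1]
  change 0 ≤ N⁻¹ * ∫ p, ∫ z, F p z ∂volume ∂(volume.prod volume)
  rw [hswap]
  apply mul_nonneg (by positivity)
  apply integral_nonneg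
  intro z
  simp only [hF, Pi.zero_apply]
  rw [integral_prod_mul (fun x : E d => f x * exp (-(2 * v) * ‖x - z‖ ^ 2))
    (fun x : E d => f x * exp (-(2 * v) * ‖x - z‖ ^ 2))]
  exact mul_self_nonneg _

theorem bdd_of_compact {f : E d → ℝ} (hf : Continuous f) (hc : HasCompactSupport f) :
    ∃ C, 0 ≤ C ∧ ∀ x, |f x| ≤ C := by
  obtain ⟨C, hC⟩ := hc.exists_bound_of_continuous hf
  exact ⟨C, (norm_nonneg _).trans (hC 0), hC⟩

theorem diag_null (hd : 1 ≤ d) : ∀ᵐ p : E d × E d ∂(volume.prod volume), p.1 - p.2 ≠ 0 := by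
  have := nontrivial_E hd
  rw [ae_iff]
  simp only [ne_eq, not_not, sub_eq_zero]
  rw [Measure.measure_prod_null (measurableSet_eq_fun measurable_fst measurable_snd)]
  refine ae_of_all _ fun x => ?_
  have : Prod.mk x ⁻¹' {a : E d × E d | a.1 = a.2} = {x} := by
    ext y
    simp [eq_comm]
  change volume (Prod.mk x ⁻¹' {a : E d × E d | a.1 = a.2}) = 0
  rw [this]
  simp

theorem integrable_prod_kernel {g : E d → ℝ} (hg : Integrable g) {f : E d → ℝ}
    (hf : Continuous f) (hc : HasCompactSupport f) :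
    Integrable (fun p : E d × E d => f p.1 * g (p.1 - p.2) * f p.2) (volume.prod volume) := by
  obtain ⟨C, hC0, hC⟩ := bdd_of_compact hf hc
  have hfi : Integrable f := hf.integrable_of_hasCompactSupport hc
  have h1 := hfi.convolution_integrand (ContinuousLinearMap.mul ℝ ℝ) hg
  have h2 : Integrable (fun p : E d × E d => f p.2 * g (p.1 - p.2)) (volume.prod volume) := h1
  have h3 := h2.bdd_mul (f := fun p : E d × E d => f p.1) (c := C)
    (by apply Continuous.aestronglyMeasurable; fun_prop) (ae_of_all _ fun p => hC p.1)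
  refine h3.congr (ae_of_all _ fun p => ?_)
  simp only
  ring

theorem g0_pd (hd : 1 ≤ d) {f : E d → ℝ} (hf : Continuous f) (hc : HasCompactSupport f) :
    0 ≤ ∫ p : E d × E d, f p.1 * g0 (p.1 - p.2) * f p.2 := by
  set ν : Measure ℝ := volume.restrict (Set.Ioi (1 : ℝ)) with hν
  set F : E d × E d → ℝ → ℝ := fun p v => f p.1 * f p.2 *
    (exp (-(v * ‖p.1 - p.2‖ ^ 2)) / v) with hF
  have hFi : Integrable (Function.uncurry F) ((volume.prod volume).prod ν) := by
    rw [integrable_prod_iff]
    · refine ⟨?_, ?_⟩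
      · filter_upwards [diag_null hd] with p hp
        exact (integrableOn_scale (s := ‖p.1 - p.2‖ ^ 2) (by
          have := norm_pos_iff.2 hp
          positivity)).const_mul (f p.1 * f p.2)
      · have : (fun p : E d × E d => ∫ v, ‖Function.uncurry F (p, v)‖ ∂ν) = fun p =>
            2 * (|f p.1| * g0 (p.1 - p.2) * |f p.2|) := by
          ext p
          have h1 : ∫ v, ‖Function.uncurry F (p, v)‖ ∂ν =
              ∫ v, |f p.1| * |f p.2| * (exp (-(v * ‖p.1 - p.2‖ ^ 2)) / v) ∂ν := by
            refine setIntegral_congr_fun measurableSet_Ioi fun v hv => ?_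
            have hv' : (1 : ℝ) < v := hv
            have hv0 : 0 < v := by linarith
            simp only [Function.uncurry, hF, norm_mul, norm_div, norm_eq_abs, abs_exp, abs_of_pos hv0]
          rw [h1, integral_const_mul]
          simp only [g0, prof]
          ring
        rw [this]
        exact (integrable_prod_kernel (integrable_g0 hd) hf.abs hc.norm).const_mul 2
    · apply Measurable.aestronglyMeasurable
      have := hf.measurable
      simp only [hF, Function.uncurry_def]
      fun_prop
  have h1 : ∫ p : E d × E d, f p.1 * g0 (p.1 - p.2) * f p.2 =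
      1 / 2 * ∫ p : E d × E d, ∫ v, F p v ∂ν := by
    rw [← integral_const_mul]
    refine integral_congr_ae (ae_of_all _ fun p => ?_)
    simp only [hF, g0, prof]
    rw [integral_const_mul]
    ring
  rw [h1]
  change 0 ≤ 1 / 2 * ∫ p, ∫ v, F p v ∂ν ∂(volume.prod volume)
  rw [integral_integral_swap hFi]
  apply mul_nonneg (by norm_num)
  refine setIntegral_nonneg measurableSet_Ioi fun v hv => ?_
  have hv' : (1 : ℝ) < v := hv
  have hv0 : 0 < v := by linarith
  have h2 := gauss_pd hv0 hf hc
  have h3 : ∫ p, F p v ∂(volume.prod volume) =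
      v⁻¹ * ∫ p : E d × E d, f p.1 * exp (-(v * ‖p.1 - p.2‖ ^ 2)) * f p.2 := by
    rw [← integral_const_mul]
    refine integral_congr_ae (ae_of_all _ fun p => ?_)
    simp only [hF]
    ring
  rw [h3]
  positivity

/-- the wave of frequency `κ` in the first direction -/
noncomputable def wave (κ : ℝ) (i : Fin d) (x : E d) : ℝ := cos (κ * x i)

theorem continuous_wave (κ : ℝ) (i : Fin d) : Continuous (wave κ i) := by
  unfold wave
  fun_prop

theorem integrable_prod_wave (κ : ℝ) (i : Fin d) {f : E d → ℝ}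
    (hf : Continuous f) (hc : HasCompactSupport f) :
    Integrable (fun p : E d × E d => f p.1 * wave κ i (p.1 - p.2) * f p.2)
      (volume.prod volume) := by
  have hfi : Integrable f := hf.integrable_of_hasCompactSupport hc
  have h1 : Integrable (fun p : E d × E d => f p.1 * f p.2) (volume.prod volume) :=
    hfi.mul_prod hfi
  have hw := continuous_wave κ i
  have h3 := h1.bdd_mul (f := fun p : E d × E d => wave κ i (p.1 - p.2)) (c := 1)
    (by apply Continuous.aestronglyMeasurable; fun_prop)
    (ae_of_all _ fun p => abs_cos_le_one _)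
  refine h3.congr (ae_of_all _ fun p => ?_)
  simp only
  ring

theorem wave_pd (κ : ℝ) (i : Fin d) {f : E d → ℝ} (hf : Continuous f) (hc : HasCompactSupport f) :
    0 ≤ ∫ p : E d × E d, f p.1 * wave κ i (p.1 - p.2) * f p.2 := by
  have hfi : Integrable f := hf.integrable_of_hasCompactSupport hc
  have hC : Integrable (fun x : E d => f x * cos (κ * x i)) := by
    have h3 := hfi.bdd_mul (f := fun x : E d => cos (κ * x i)) (c := 1)
      (by apply Continuous.aestronglyMeasurable; fun_prop) (ae_of_all _ fun p => abs_cos_le_one _)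
    refine h3.congr (ae_of_all _ fun p => ?_)
    simp only
    ring
  have hS : Integrable (fun x : E d => f x * sin (κ * x i)) := by
    have h3 := hfi.bdd_mul (f := fun x : E d => sin (κ * x i)) (c := 1)
      (by apply Continuous.aestronglyMeasurable; fun_prop) (ae_of_all _ fun p => abs_sin_le_one _)
    refine h3.congr (ae_of_all _ fun p => ?_)
    simp only
    ring
  have h1 : ∫ p : E d × E d, f p.1 * wave κ i (p.1 - p.2) * f p.2 =
      ∫ p : E d × E d, ((f p.1 * cos (κ * p.1 i)) * (f p.2 * cos (κ * p.2 i)) +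
        (f p.1 * sin (κ * p.1 i)) * (f p.2 * sin (κ * p.2 i))) := by
    refine integral_congr_ae (ae_of_all _ fun p => ?_)
    simp only [wave, PiLp.sub_apply, mul_sub, cos_sub]
    ring
  rw [h1]
  change 0 ≤ ∫ p : E d × E d, ((f p.1 * cos (κ * p.1 i)) * (f p.2 * cos (κ * p.2 i)) +
        (f p.1 * sin (κ * p.1 i)) * (f p.2 * sin (κ * p.2 i))) ∂(volume.prod volume)
  rw [integral_add (hC.mul_prod hC) (hS.mul_prod hS)]
  rw [integral_prod_mul (fun x : E d => f x * cos (κ * x i)) (fun x : E d => f x * cos (κ * x i)),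
    integral_prod_mul (fun x : E d => f x * sin (κ * x i)) (fun x : E d => f x * sin (κ * x i))]
  exact add_nonneg (mul_self_nonneg _) (mul_self_nonneg _)

/-- the kernel of the counterexample -/
noncomputable def gA (A κ : ℝ) (i : Fin d) (x : E d) : ℝ := g0 x + A * wave κ i x

theorem gA_posDef (hd : 1 ≤ d) {A : ℝ} (hA : 0 ≤ A) (κ : ℝ) (i : Fin d) :
    PosDef (gA (d := d) A κ i) := by
  intro f hf hc
  have h1 := integrable_prod_kernel (integrable_g0 hd) hf hc
  have h2 := integrable_prod_wave κ i hf hc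
  have h3 : Integrable (fun p : E d × E d => f p.1 * gA A κ i (p.1 - p.2) * f p.2)
      (volume.prod volume) := by
    refine (h1.add (h2.const_mul A)).congr (ae_of_all _ fun p => ?_)
    simp only [gA, Pi.add_apply]
    ring
  have h4 := integral_prod _ h3
  simp only at h4
  rw [← h4]
  have h5 : ∫ p : E d × E d, f p.1 * gA A κ i (p.1 - p.2) * f p.2 ∂(volume.prod volume) =
      (∫ p : E d × E d, f p.1 * g0 (p.1 - p.2) * f p.2 ∂(volume.prod volume)) +
      A * ∫ p : E d × E d, f p.1 * wave κ i (p.1 - p.2) * f p.2 ∂(volume.prod volume) := by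
    rw [← integral_const_mul, ← integral_add h1 (h2.const_mul A)]
    refine integral_congr_ae (ae_of_all _ fun p => ?_)
    simp only [gA]
    ring
  rw [h5]
  exact add_nonneg (g0_pd hd hf hc) (mul_nonneg hA (wave_pd κ i hf hc))

theorem gA_admissible (hd : 1 ≤ d) {A : ℝ} (hA : 0 ≤ A) (κ : ℝ) (i : Fin d) :
    Admissible (gA (d := d) A κ i) := by
  refine ⟨fun x => ?_, gA_posDef hd hA κ i, fun x => h0 x + A * wave κ i x, ?_, ?_, fun x hx => ?_⟩
  · simp only [gA, g0_even, wave, PiLp.neg_apply, mul_neg, cos_neg]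
  · have := continuous_h0 (d := d)
    have := continuous_wave (d := d) κ i
    fun_prop
  · obtain ⟨C, hC0, hC⟩ := exists_H_bound
    refine ⟨C + A, fun x => ?_⟩
    have h1 : |h0 x| ≤ C := by
      unfold h0
      have h3 := hC (‖x‖ ^ 2)
      rw [abs_div, abs_of_pos (zero_lt_two' ℝ)]
      have := abs_nonneg (H (‖x‖ ^ 2))
      linarith
    have h2 : |A * wave κ i x| ≤ A := by
      rw [abs_mul, abs_of_nonneg hA]
      have : |wave κ i x| ≤ 1 := abs_cos_le_one _
      nlinarith
    exact (abs_add_le _ _).trans (add_le_add h1 h2)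
  · simp only [gA]
    rw [g0_eq hx]
    ring

end Pool.Agent.Y980.ID
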