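import Pool.Agent.Y980.ID.Residual

/-!
# Two-sided bound of the regularised mass on a large event
-/

set_option autoImplicit false

namespace Pool.Agent.Y980.ID

open MeasureTheory ProbabilityTheory Filter Topology Real
open scoped ENNReal

variable {d : ℕ}

/-- the volume of the unit ball -/
noncomputable def ub (d : ℕ) : ℝ := (volume (Metric.ball (0 : E d) 1)).toReal

theorem ub_pos : 0 < ub d := by
  apply ENNReal.toReal_pos
  · exact (Metric.measure_ball_pos volume _ one_pos).ne'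
  · exact measure_ball_lt_top.ne

theorem vol_ball (hd : 1 ≤ d) (x : E d) {r : ℝ} (hr : 0 ≤ r) :
    volume (Metric.ball x r) = ENNReal.ofReal (r ^ d * ub d) := by
  have := nontrivial_E hd
  have e : Module.finrank ℝ (E d) = d := by simp
  rw [Measure.addHaar_ball volume x hr, e, ENNReal.ofReal_mul (by positivity), ub,
    ENNReal.ofReal_toReal measure_ball_lt_top.ne]

/-- the index set of the small balls -/
noncomputable def JJ : Finset ℤ := Finset.Icc (-13) 13

/-- the small balls -/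
def bl (i : Fin d) (r : ℝ) (j : ℤ) : Set (E d) :=
  Metric.ball (EuclideanSpace.single i ((j : ℝ) / 4 * r)) (r / 4)

theorem bl_sub (i : Fin d) {r : ℝ} (hr : 0 < r) {j : ℤ} (hj : j ∈ JJ) :
    bl i r j ⊆ Metric.ball (0 : E d) (4 * r) := by
  intro x hx
  rw [bl, Metric.mem_ball, dist_eq_norm] at hx
  rw [Metric.mem_ball, dist_zero_right]
  rw [JJ, Finset.mem_Icc] at hj
  have h1 : ‖(EuclideanSpace.single i ((j : ℝ) / 4 * r) : E d)‖ ≤ 13 / 4 * r := by
    rw [EuclideanSpace.norm_single, norm_eq_abs, abs_mul, abs_of_pos hr]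
    apply mul_le_mul_of_nonneg_right _ hr.le
    rw [abs_le]
    have h2 : (-13 : ℝ) ≤ j := by exact_mod_cast hj.1
    have h3 : (j : ℝ) ≤ 13 := by exact_mod_cast hj.2
    constructor <;> linarith
  have h2 := norm_sub_norm_le x (EuclideanSpace.single i ((j : ℝ) / 4 * r) : E d)
  linarith

theorem angle (V V' : ℝ) : ∃ j ∈ JJ, ∀ t : ℝ, |t - (j : ℝ) / 4| ≤ 1 / 4 →
    7 / 8 * √(V ^ 2 + V' ^ 2) ≤ cos t * V + sin t * V' := by
  set z : ℂ := ⟨V, V'⟩ with hz
  set Θ := Complex.arg z with hΘ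
  have hρ : ‖z‖ = √(V ^ 2 + V' ^ 2) := by
    rw [Complex.norm_def, Complex.normSq_apply]
    congr 1
    simp only [hz]
    ring
  have h1 : ‖z‖ * cos Θ = V := Complex.norm_mul_cos_arg z
  have h2 : ‖z‖ * sin Θ = V' := Complex.norm_mul_sin_arg z
  set j := round (4 * Θ) with hj
  have h3 : |4 * Θ - j| ≤ 1 / 2 := abs_sub_round _
  have h4 := Complex.neg_pi_lt_arg z
  have h5 := Complex.arg_le_pi z
  have hpi : π < 3.15 := pi_lt_d2
  rw [← hΘ] at h4 h5
  have h3' := abs_le.1 h3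
  refine ⟨j, ?_, fun t ht => ?_⟩
  · rw [JJ, Finset.mem_Icc]
    constructor
    · have : (-14 : ℝ) < j := by linarith [h3'.1, h3'.2]
      have : (-14 : ℤ) < j := by exact_mod_cast this
      omega
    · have : (j : ℝ) < 14 := by linarith [h3'.1, h3'.2]
      have : j < (14 : ℤ) := by exact_mod_cast this
      omega
  · have ht' := abs_le.1 ht
    have h6 : cos t * V + sin t * V' = ‖z‖ * cos (t - Θ) := by
      rw [cos_sub]
      linear_combination (-cos t) * h1 - sin t * h2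
    rw [h6, ← hρ]
    have h7 : 7 / 8 ≤ cos (t - Θ) := by
      refine le_trans ?_ (one_sub_sq_div_two_le_cos)
      have h8 : (t - Θ) ^ 2 ≤ (3 / 8) ^ 2 := by
        apply sq_le_sq'
        · linarith [h3'.1, h3'.2, ht'.1, ht'.2]
        · linarith [h3'.1, h3'.2, ht'.1, ht'.2]
      linarith
    have := norm_nonneg z
    nlinarith

theorem upper_le (V V' t : ℝ) : cos t * V + sin t * V' ≤ √(V ^ 2 + V' ^ 2) := by
  apply le_sqrt_of_sq_le
  nlinarith [sq_nonneg (sin t * V - cos t * V'), sin_sq_add_cos_sq t]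

theorem angle_bl (i : Fin d) {r : ℝ} (hr : 0 < r) (V V' : ℝ) : ∃ j ∈ JJ, ∀ x ∈ bl i r j,
    7 / 8 * √(V ^ 2 + V' ^ 2) ≤ cos (r⁻¹ * x i) * V + sin (r⁻¹ * x i) * V' := by
  obtain ⟨j, hj, h⟩ := angle V V'
  refine ⟨j, hj, fun x hx => h _ ?_⟩
  rw [bl, Metric.mem_ball, dist_eq_norm] at hx
  have h1 : |(x - (EuclideanSpace.single i ((j : ℝ) / 4 * r) : E d)) i| ≤
      ‖x - (EuclideanSpace.single i ((j : ℝ) / 4 * r) : E d)‖ := by
    have := PiLp.norm_apply_le (x - (EuclideanSpace.single i ((j : ℝ) / 4 * r) : E d)) i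
    rwa [norm_eq_abs] at this
  have h2 : (x - (EuclideanSpace.single i ((j : ℝ) / 4 * r) : E d)) i = x i - (j : ℝ) / 4 * r := by
    simp
  rw [h2] at h1
  have h3 : r⁻¹ * x i - (j : ℝ) / 4 = r⁻¹ * (x i - (j : ℝ) / 4 * r) := by
    field_simp
  rw [h3, abs_mul, abs_of_pos (inv_pos.2 hr)]
  have h4 : |x i - (j : ℝ) / 4 * r| ≤ r / 4 := h1.trans hx.le
  calc r⁻¹ * |x i - (j : ℝ) / 4 * r| ≤ r⁻¹ * (r / 4) :=
        mul_le_mul_of_nonneg_left h4 (by positivity)
    _ = 1 / 4 := by field_simp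

section

variable {Ω : Type*} [MeasurableSpace Ω] {P : Measure Ω} {X : E d → Ω → ℝ} {f : E d → ℝ}
  {s r η : ℝ} {i : Fin d} {V V' : Ω → ℝ} {Y : E d → Ω → ℝ}

/-- the amplitude -/
noncomputable def amp (V V' : Ω → ℝ) (w : Ω) : ℝ := √(V w ^ 2 + V' w ^ 2)

theorem point_upper (D : Decomp P X f s r⁻¹ i η V V' Y) (x : E d) (w : Ω) :
    ENNReal.ofReal (exp (X x w - (f 0 + s) / 2)) ≤
      ENNReal.ofReal (exp (amp V V' w - s / 2 + η / 2)) * dens P Y x w := by
  unfold dens
  rw [← ENNReal.ofReal_mul (exp_pos _).le, ← exp_add]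
  apply ENNReal.ofReal_le_ofReal
  apply exp_le_exp.2
  have h1 := D.eq x w
  have h2 := upper_le (V w) (V' w) (r⁻¹ * x i)
  have h3 := abs_le.1 (D.cY x x)
  rw [sub_self] at h3
  unfold amp
  linarith [h3.1, h3.2]

theorem point_lower (D : Decomp P X f s r⁻¹ i η V V' Y) {x : E d} {w : Ω}
    (h : 7 / 8 * amp V V' w ≤ cos (r⁻¹ * x i) * V w + sin (r⁻¹ * x i) * V' w) :
    ENNReal.ofReal (exp (7 / 8 * amp V V' w - s / 2 - η / 2)) * dens P Y x w ≤
      ENNReal.ofReal (exp (X x w - (f 0 + s) / 2)) := by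
  unfold dens
  rw [← ENNReal.ofReal_mul (exp_pos _).le, ← exp_add]
  apply ENNReal.ofReal_le_ofReal
  apply exp_le_exp.2
  have h1 := D.eq x w
  have h3 := abs_le.1 (D.cY x x)
  rw [sub_self] at h3
  linarith [h3.1, h3.2]

/-- the regularised mass -/
noncomputable def ZZ (X : E d → Ω → ℝ) (v r : ℝ) (w : Ω) : ℝ≥0∞ :=
  ∫⁻ x in Metric.ball (0 : E d) (4 * r), ENNReal.ofReal (exp (X x w - v / 2))

theorem ZZ_upper [IsProbabilityMeasure P] (D : Decomp P X f s r⁻¹ i η V V' Y) (w : Ω) :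
    ZZ X (f 0 + s) r w ≤ ENNReal.ofReal (exp (amp V V' w - s / 2 + η / 2)) *
      mass P Y (Metric.ball (0 : E d) (4 * r)) w := by
  have hm := dens_measurable (P := P) D.zY D.mY
  have hw : Measurable (fun x => dens P Y x w) := hm.of_uncurry_right
  unfold ZZ mass
  rw [← lintegral_const_mul _ hw]
  exact lintegral_mono fun x => point_upper D x w

theorem ZZ_lower [IsProbabilityMeasure P] (hr : 0 < r) (D : Decomp P X f s r⁻¹ i η V V' Y)
    {w : Ω} {v : ℝ≥0∞} (h : ∀ j ∈ JJ, v ≤ mass P Y (bl i r j) w) :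
    ENNReal.ofReal (exp (7 / 8 * amp V V' w - s / 2 - η / 2)) * v ≤ ZZ X (f 0 + s) r w := by
  have hm := dens_measurable (P := P) D.zY D.mY
  have hw : Measurable (fun x => dens P Y x w) := hm.of_uncurry_right
  obtain ⟨j, hj, hx⟩ := angle_bl i hr (V w) (V' w)
  calc ENNReal.ofReal (exp (7 / 8 * amp V V' w - s / 2 - η / 2)) * v
      ≤ ENNReal.ofReal (exp (7 / 8 * amp V V' w - s / 2 - η / 2)) * mass P Y (bl i r j) w :=
        mul_le_mul_right (h j hj) _
    _ = ∫⁻ x in bl i r j, ENNReal.ofReal (exp (7 / 8 * amp V V' w - s / 2 - η / 2)) *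
          dens P Y x w := by
        unfold mass
        rw [lintegral_const_mul _ hw]
    _ ≤ ∫⁻ x in bl i r j, ENNReal.ofReal (exp (X x w - (f 0 + s) / 2)) := by
        refine setLIntegral_mono' ?_ fun x hxx => point_lower D (hx x hxx)
        exact measurableSet_ball
    _ ≤ ZZ X (f 0 + s) r w := lintegral_mono_set (bl_sub i hr hj)

/-- The bad event has a small probability. -/
theorem bad_le [IsProbabilityMeasure P] (hd : 1 ≤ d) (hr : 0 < r)
    (D : Decomp P X f s r⁻¹ i η V V' Y)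
    (hf0 : ∀ x, 0 ≤ f x) (hfm : Measurable f) {C : ℝ} (hC0 : 0 ≤ C)
    (hC : ∫⁻ x, ENNReal.ofReal (exp (f x) - 1) ≤ ENNReal.ofReal C)
    (hv : 2 ≤ (r / 4) ^ d * ub d) {a : ℝ} :
    P {w | ¬ (ENNReal.ofReal (exp (7 / 8 * amp V V' w - s / 2 - η / 2)) ≤ ZZ X (f 0 + s) r w ∧
      ZZ X (f 0 + s) r w ≤ ENNReal.ofReal (exp (amp V V' w - s / 2 + η / 2 + a)))} ≤
    ENNReal.ofReal (108 * ((exp η - 1) + exp η * C / ((r / 4) ^ d * ub d)) +
      (4 * r) ^ d * ub d * exp (-a)) := by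
  set vB := (r / 4) ^ d * ub d with hvB
  set vD := (4 * r) ^ d * ub d with hvD
  have hub := ub_pos (d := d)
  have hη : 0 ≤ η := (abs_nonneg _).trans (D.cY 0 0)
  have h1 : ∀ j ∈ JJ, P {w | mass P Y (bl i r j) w < ENNReal.ofReal (vB / 2)} ≤
      ENNReal.ofReal (4 * ((exp η - 1) + exp η * C / vB)) := by
    intro j _
    refine mass_lower D.gY D.zY D.mY (k := f) (fun x y => ?_) hf0 hfm hC hC0 (by linarith)
      (vol_ball hd _ (by positivity))
    have := abs_le.1 (D.cY x y)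
    linarith [this.2]
  have h2 : P {w | ENNReal.ofReal (exp a) ≤ mass P Y (Metric.ball (0 : E d) (4 * r)) w} ≤
      ENNReal.ofReal (vD * exp (-a)) := by
    have := mass_upper D.gY D.zY D.mY (B := Metric.ball (0 : E d) (4 * r)) (v := vD)
      (vol_ball hd _ (by positivity)) (exp_pos a)
    rwa [div_eq_mul_inv, ← exp_neg] at this
  have hsub : {w | ¬ (ENNReal.ofReal (exp (7 / 8 * amp V V' w - s / 2 - η / 2)) ≤
        ZZ X (f 0 + s) r w ∧
      ZZ X (f 0 + s) r w ≤ ENNReal.ofReal (exp (amp V V' w - s / 2 + η / 2 + a)))} ⊆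
      (⋃ j ∈ JJ, {w | mass P Y (bl i r j) w < ENNReal.ofReal (vB / 2)}) ∪
      {w | ENNReal.ofReal (exp a) ≤ mass P Y (Metric.ball (0 : E d) (4 * r)) w} := by
    intro w hw
    by_contra hcon
    simp only [Set.mem_union, Set.mem_iUnion, Set.mem_ofPred_eq, exists_prop, not_or, not_exists,
      not_and, not_lt, not_le] at hcon
    obtain ⟨c1, c2⟩ := hcon
    apply hw
    constructor
    · refine le_trans ?_ (ZZ_lower hr D c1)
      rw [← ENNReal.ofReal_mul (exp_pos _).le]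
      apply ENNReal.ofReal_le_ofReal
      exact le_mul_of_one_le_right (exp_pos _).le (by linarith)
    · refine (ZZ_upper D w).trans ((mul_le_mul_right c2.le _).trans ?_)
      rw [← ENNReal.ofReal_mul (exp_pos _).le, ← exp_add]
  refine (measure_mono hsub).trans ((measure_union_le _ _).trans ?_)
  have h3 : P (⋃ j ∈ JJ, {w | mass P Y (bl i r j) w < ENNReal.ofReal (vB / 2)}) ≤
      ENNReal.ofReal (108 * ((exp η - 1) + exp η * C / vB)) := by
    refine (measure_biUnion_finset_le _ _).trans ((Finset.sum_le_sum h1).trans ?_)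
    rw [Finset.sum_const]
    have hc : JJ.card = 27 := by simp [JJ]
    rw [hc, ← ENNReal.ofReal_nsmul]
    apply ENNReal.ofReal_le_ofReal
    simp only [nsmul_eq_mul]
    push_cast
    apply le_of_eq
    ring
  refine (add_le_add h3 h2).trans ?_
  rw [← ENNReal.ofReal_add]
  · have h4 := add_one_le_exp η
    have : 0 ≤ exp η - 1 := by linarith
    positivity
  · positivity

end

end Pool.Agent.Y980.ID
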