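import Pool.Agent.Y980.ID.Amp

/-!
# Bounds for the laws of the regularised masses
-/

set_option autoImplicit false

namespace Pool.Agent.Y980.ID

open MeasureTheory ProbabilityTheory Filter Topology Real
open scoped ENNReal

variable {d : ℕ}

/-- the exponential moment constant of the kernel -/
noncomputable def C0 (d : ℕ) (μ : ℝ) : ℝ := ∫ x : E d, (exp (μ * g0 x) - 1)

theorem C0_nonneg {μ : ℝ} (hμ : 0 ≤ μ) : 0 ≤ C0 d μ :=
  integral_nonneg fun x => by
    have := one_le_exp (mul_nonneg hμ (g0_nonneg x))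
    simp only [Pi.zero_apply]
    linarith

/-- the constants of the small and of the large balls -/
noncomputable def vB (d : ℕ) (r : ℝ) : ℝ := (r / 4) ^ d * ub d

/-- the volume of the domain -/
noncomputable def vD (d : ℕ) (r : ℝ) : ℝ := (4 * r) ^ d * ub d

/-- the four bounds for a law -/
structure Bounds (ν : Measure ℝ) (σ δ η₁ : ℝ) : Prop where
  prob : IsProbabilityMeasure ν
  low : ν (Set.Iio (exp (-δ * σ - σ ^ 2 / 2))) ≤ ENNReal.ofReal η₁
  up : ∀ t : ℝ, 0 ≤ t → ν (Set.Ioi (exp (t * σ - σ ^ 2 / 2))) ≤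
    ENNReal.ofReal (4 * exp (-((t - 1) ^ 2 / 8)) + η₁)
  three : ENNReal.ofReal (1 / 2 - η₁) ≤ ν (Set.Iic (exp (3 * σ - σ ^ 2 / 2)))
  five : ENNReal.ofReal (q9 - η₁) ≤ ν (Set.Ici (exp (5 * σ - σ ^ 2 / 2)))

theorem reg_bounds (hd : 1 ≤ d) {μ : ℝ} (hμ0 : 0 < μ) (hμ : μ < d) {σ r : ℝ} (hσ : 0 < σ)
    (hr : 0 < r) {i : Fin d} {θ : E d → ℝ} (hθ : Bump θ) {ε : ℝ} (hε : 0 < ε) {c : ℝ}
    (hc : c = ∫ y : E d, (ε⁻¹ ^ d * θ (ε⁻¹ • y)) * cos (r⁻¹ * y i))
    (hc2 : 3 / 4 ≤ c) (hc3 : 1 / 2 * (1 - c) * σ ≤ 1 / 8) {η δ η₁ : ℝ} (hη0 : 0 < η)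
    (hη2 : η ≤ σ ^ 2 / 4) (hη3 : η / 2 ≤ σ / 8) (hη4 : η / 2 ≤ δ * σ) (hη₁ : 0 ≤ η₁)
    (hb : 108 * ((exp η - 1) + exp η * C0 d μ / vB d r) + vD d r * exp (-(σ / 4)) ≤ η₁)
    (hv : 2 ≤ vB d r) {ν : Measure ℝ}
    (hν : IsRegMass (gA (σ ^ 2 / μ) r⁻¹ i) μ θ ε 0 (4 * r) (fun _ => 1) ν) :
    Bounds ν σ δ η₁ := by
  obtain ⟨Ω, mΩ, P, ω, hP, hg, hm, hcov, hmean, hνe⟩ := hν
  have hT := hθ.dens hε
  set T : E d → ℝ := fun y => ε⁻¹ ^ d * θ (ε⁻¹ • y) with hTdef
  have hκ : 0 < r⁻¹ := inv_pos.2 hr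
  have hc1 : c ≤ 1 := by
    rw [hc]
    exact (abs_le.1 (cv_cos_le hT r⁻¹ i)).2
  set s : ℝ := σ ^ 2 * c with hs
  set f : E d → ℝ := fun x => μ * cv T g0 x with hf
  have hcov2 : ∀ x y, cov[ω x, ω y; P] = f (x - y) + s * wave r⁻¹ i (x - y) := by
    intro x y
    rw [hcov, smooth_gA hd hθ hε, ← hTdef, ← hc, hs, hf]
    simp only
    field_simp
  have hw0 : wave (d := d) r⁻¹ i 0 = 1 := by simp [wave]
  have hωm : ∀ x, Measurable (ω x) := fun x => hm.of_uncurry_left
  have hvar : ∀ x, Var[ω x; P] = f 0 + s := by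
    intro x
    rw [← covariance_self (hωm x).aemeasurable, hcov2, sub_self, hw0, mul_one]
  -- the centred field
  set X : E d → Ω → ℝ := fun x w => ω x w + (f 0 + s) / 2 with hXdef
  have hgX : IsGaussianProcess X P := isGaussianProcess_add_const hg (fun _ => (f 0 + s) / 2)
  have hωi : ∀ x, Integrable (ω x) P := fun x => (hg.hasGaussianLaw_eval x).integrable
  have hX0 : ∀ x, ∫ w, X x w ∂P = 0 := by
    intro x
    simp only [hXdef]
    rw [integral_add (hωi x) (integrable_const _), hmean, hvar, integral_const, probReal_univ,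
      one_smul]
    ring
  have hmX : Measurable (Function.uncurry X) := by
    have e : Function.uncurry X = fun p => Function.uncurry ω p + (f 0 + s) / 2 := by
      ext p; rfl
    rw [e]
    exact hm.add_const _
  have hcX : ∀ x y, cov[X x, X y; P] = f (x - y) + s * wave r⁻¹ i (x - y) := by
    intro x y
    rw [← hcov2]
    simp only [hXdef]
    rw [covariance_add_const_left (hωi x), covariance_add_const_right (hωi y)]
  have hf0 : ∀ x, 0 ≤ f x := fun x => mul_nonneg hμ0.le (cv_nonneg hT g0_nonneg x)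
  have hfm : Measurable f := (cv_measurable hT measurable_g0).const_mul μ
  obtain ⟨CT, hCT0, hCT⟩ := hT.bdd
  have hF : ∀ x, f x ≤ μ * (CT * ∫ y : E d, g0 y) := fun x =>
    mul_le_mul_of_nonneg_left (cv_bdd hT (integrable_g0 hd) g0_nonneg hCT x) hμ0.le
  have hdec : ∀ η : ℝ, 0 < η → ∃ ρ : ℝ, 0 < ρ ∧ ∀ x, ρ ≤ ‖x‖ → f x ≤ η := by
    intro η' hη'
    obtain ⟨ρ, hρ0, hρ⟩ := cv_decay hT measurable_g0 (integrable_g0 hd) g0_nonneg g0_tendsto
      (show 0 < η' / μ by positivity)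
    refine ⟨ρ, hρ0, fun x hx => ?_⟩
    have := mul_le_mul_of_nonneg_left (hρ x hx) hμ0.le
    rwa [mul_div_cancel₀ _ hμ0.ne'] at this
  obtain ⟨V, V', Y, D⟩ := exists_decomp hgX hX0 hmX hcX hf0 hF hdec hκ hη0
  have hexp := cv_exp_int hT hμ0.le measurable_g0 (integrable_g0 hd) g0_nonneg
    (integrable_exp_g0 hd hμ0 hμ)
  have hC : ∫⁻ x, ENNReal.ofReal (exp (f x) - 1) ≤ ENNReal.ofReal (C0 d μ) := by
    have h1 : ∫⁻ x, ENNReal.ofReal (exp (f x) - 1) = ENNReal.ofReal (∫ x, (exp (f x) - 1)) := by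
      rw [ofReal_integral_eq_lintegral_ofReal hexp.1 (ae_of_all _ fun x => ?_)]
      have := one_le_exp (hf0 x)
      simp only [Pi.zero_apply]
      linarith
    rw [h1]
    exact ENNReal.ofReal_le_ofReal hexp.2
  have hbad := bad_le hd hr D hf0 hfm (C0_nonneg hμ0.le) hC hv (a := σ / 4)
  set bad : Set Ω := {w | ¬ (ENNReal.ofReal (exp (7 / 8 * amp V V' w - s / 2 - η / 2)) ≤
      ZZ X (f 0 + s) r w ∧
      ZZ X (f 0 + s) r w ≤ ENNReal.ofReal (exp (amp V V' w - s / 2 + η / 2 + σ / 4)))} with hbaddef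
  have hbad' : P bad ≤ ENNReal.ofReal η₁ := hbad.trans (ENNReal.ofReal_le_ofReal hb)
  -- the mass
  set Z : Ω → ℝ := fun w => ∫ x in Metric.ball (0 : E d) (4 * r), 1 * exp (ω x w) with hZ
  have hZe : ∀ w, Z w = (ZZ X (f 0 + s) r w).toReal := by
    intro w
    simp only [hZ, ZZ, one_mul]
    have hmw : Measurable (fun x => ω x w) := hm.of_uncurry_right
    rw [integral_eq_lintegral_of_nonneg_ae (ae_of_all _ fun x => (exp_pos _).le)
      (measurable_exp.comp hmw).aestronglyMeasurable]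
    congr 1
    refine lintegral_congr fun x => ?_
    simp only [hXdef]
    congr 2
    ring
  have hZm : Measurable Z := by
    have e : Z = fun w => (ZZ X (f 0 + s) r w).toReal := by ext w; exact hZe w
    rw [e]
    apply Measurable.ennreal_toReal
    unfold ZZ
    have h1 : Measurable (fun p : E d × Ω => ENNReal.ofReal (exp (X p.1 p.2 - (f 0 + s) / 2))) := by
      apply Measurable.ennreal_ofReal
      apply measurable_exp.comp
      exact hmX.sub_const _
    exact h1.lintegral_prod_left'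
  have hgood : ∀ w, w ∉ bad → exp (7 / 8 * amp V V' w - s / 2 - η / 2) ≤ Z w ∧
      Z w ≤ exp (amp V V' w - s / 2 + η / 2 + σ / 4) := by
    intro w hw
    simp only [hbaddef, Set.mem_ofPred_eq, not_not] at hw
    rw [hZe]
    have hfin : ZZ X (f 0 + s) r w ≠ ⊤ := (hw.2.trans_lt ENNReal.ofReal_lt_top).ne
    constructor
    · exact (ENNReal.ofReal_le_iff_le_toReal hfin).1 hw.1
    · exact ENNReal.toReal_le_of_le_ofReal (exp_pos _).le hw.2
  have hs1 : s ≤ σ ^ 2 := by
    rw [hs]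
    have : 0 < σ ^ 2 := by positivity
    nlinarith
  have hs2 : 3 / 4 * σ ^ 2 ≤ s := by
    rw [hs]
    have : 0 < σ ^ 2 := by positivity
    nlinarith
  have hs3 : -s / 2 ≤ -σ ^ 2 / 2 + σ / 8 := by
    rw [hs]
    nlinarith
  have hamp0 : ∀ w, 0 ≤ amp V V' w := fun w => sqrt_nonneg _
  have hmap : ∀ S : Set ℝ, MeasurableSet S → ν S = P (Z ⁻¹' S) := by
    intro S hS
    rw [hνe, Measure.map_apply hZm hS]
  refine ⟨?_, ?_, fun t ht => ?_, ?_, ?_⟩
  · rw [hνe]
    exact Measure.isProbabilityMeasure_map hZm.aemeasurable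
  · rw [hmap _ measurableSet_Iio]
    refine (measure_mono ?_).trans hbad'
    intro w hw
    by_contra hcon
    have h1 := (hgood w hcon).1
    simp only [Set.mem_preimage, Set.mem_Iio] at hw
    have h2 := lt_of_le_of_lt h1 hw
    rw [exp_lt_exp] at h2
    have := hamp0 w
    nlinarith
  · rw [hmap _ measurableSet_Ioi]
    have hsub : Z ⁻¹' Set.Ioi (exp (t * σ - σ ^ 2 / 2)) ⊆
        {w | (t - 1 / 2) * σ < amp V V' w} ∪ bad := by
      intro w hw
      by_contra hcon
      simp only [Set.mem_union, not_or] at hcon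
      have h1 := (hgood w hcon.2).2
      simp only [Set.mem_preimage, Set.mem_Ioi] at hw
      have h2 := lt_of_lt_of_le hw h1
      rw [exp_lt_exp] at h2
      apply hcon.1
      simp only [Set.mem_ofPred_eq]
      linarith
    refine (measure_mono hsub).trans ((measure_union_le _ _).trans ?_)
    rw [ENNReal.ofReal_add (by positivity) hη₁]
    exact add_le_add (amp_tail D hσ hs1 hη2 ht) hbad'
  · rw [hmap _ measurableSet_Iic]
    have hsub : (Set.univ : Set Ω) ⊆ Z ⁻¹' Set.Iic (exp (3 * σ - σ ^ 2 / 2)) ∪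
        ({w | 5 / 2 * σ < amp V V' w} ∪ bad) := by
      intro w _
      by_contra hcon
      simp only [Set.mem_union, not_or, Set.mem_preimage, Set.mem_Iic, not_le,
        Set.mem_ofPred_eq, not_lt] at hcon
      have h1 := (hgood w hcon.2.2).2
      have h2 := lt_of_lt_of_le hcon.1 h1
      rw [exp_lt_exp] at h2
      linarith [hcon.2.1]
    have h1 := (measure_mono (μ := P) hsub).trans (measure_union_le _ _)
    have h2 : P ({w | 5 / 2 * σ < amp V V' w} ∪ bad) ≤
        ENNReal.ofReal (1 / 2) + ENNReal.ofReal η₁ :=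
      (measure_union_le _ _).trans (add_le_add (amp_markov D hσ hs1 hη2) hbad')
    rw [measure_univ] at h1
    have h3 := h1.trans (add_le_add_right h2 _)
    rw [← ENNReal.ofReal_add (by norm_num) hη₁] at h3
    have h4 : ENNReal.ofReal (1 / 2 - η₁) = 1 - ENNReal.ofReal (1 / 2 + η₁) := by
      rw [← ENNReal.ofReal_one, ← ENNReal.ofReal_sub _ (by positivity)]
      congr 1
      ring
    rw [h4]
    exact tsub_le_iff_right.2 h3
  · rw [hmap _ measurableSet_Ici]
    have hsub : {w | 6 * σ ≤ amp V V' w} ⊆ Z ⁻¹' Set.Ici (exp (5 * σ - σ ^ 2 / 2)) ∪ bad := by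
      intro w hw
      by_contra hcon
      simp only [Set.mem_union, not_or, Set.mem_preimage, Set.mem_Ici, not_le] at hcon
      have h1 := (hgood w hcon.2).1
      have h2 := lt_of_le_of_lt h1 hcon.1
      rw [exp_lt_exp] at h2
      simp only [Set.mem_ofPred_eq] at hw
      linarith
    have h1 := ((amp_large D hσ hs2 hη2).trans (measure_mono hsub)).trans (measure_union_le _ _)
    have h3 := h1.trans (add_le_add_right hbad' _)
    have h4 : ENNReal.ofReal (q9 - η₁) = ENNReal.ofReal q9 - ENNReal.ofReal η₁ :=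
      ENNReal.ofReal_sub _ hη₁
    rw [h4]
    exact tsub_le_iff_right.2 h3

end Pool.Agent.Y980.ID
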