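import Pool.Agent.Y980.ID.Extract

/-!
# The field minus its wave
-/

set_option autoImplicit false

namespace Pool.Agent.Y980.ID

open MeasureTheory ProbabilityTheory Filter Topology Real
open scoped ENNReal

variable {d : ℕ} {Ω : Type*} [MeasurableSpace Ω] {P : Measure Ω}

theorem abs_mul_le_one {a b η : ℝ} (ha : |a| ≤ 1) (hb : |b| ≤ η) : |a * b| ≤ η := by
  rw [abs_mul]
  have := abs_nonneg a
  have := abs_nonneg b
  nlinarith

/-- the decomposition of a field -/
structure Decomp (P : Measure Ω) (X : E d → Ω → ℝ) (f : E d → ℝ) (s κ : ℝ) (i : Fin d) (η : ℝ)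
    (V V' : Ω → ℝ) (Y : E d → Ω → ℝ) : Prop where
  gV : HasGaussianLaw V P
  gV' : HasGaussianLaw V' P
  mV : Measurable V
  mV' : Measurable V'
  zV : ∫ w, V w ∂P = 0
  zV' : ∫ w, V' w ∂P = 0
  vV : |Var[V; P] - s| ≤ η
  vV' : |Var[V'; P] - s| ≤ η
  gY : IsGaussianProcess Y P
  zY : ∀ x, ∫ w, Y x w ∂P = 0
  mY : Measurable (Function.uncurry Y)
  cY : ∀ x y, |cov[Y x, Y y; P] - f (x - y)| ≤ η
  eq : ∀ x w, X x w = Y x w + cos (κ * x i) * V w + sin (κ * x i) * V' w

theorem exists_decomp {X : E d → Ω → ℝ} (hg : IsGaussianProcess X P)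
    (h0 : ∀ x, ∫ w, X x w ∂P = 0) (hm : Measurable (Function.uncurry X))
    {f : E d → ℝ} {F s κ : ℝ} {i : Fin d}
    (hX : ∀ x y, cov[X x, X y; P] = f (x - y) + s * wave κ i (x - y))
    (hf0 : ∀ x, 0 ≤ f x) (hF : ∀ x, f x ≤ F)
    (hdec : ∀ η : ℝ, 0 < η → ∃ ρ : ℝ, 0 < ρ ∧ ∀ x, ρ ≤ ‖x‖ → f x ≤ η) (hκ : 0 < κ)
    {η : ℝ} (hη : 0 < η) :
    ∃ (V V' : Ω → ℝ) (Y : E d → Ω → ℝ), Decomp P X f s κ i η V V' Y := by
  have hp := hg.isProbabilityMeasure
  have hF0 : 0 ≤ F := (hf0 0).trans (hF 0)
  obtain ⟨ρ, hρ0, hρ⟩ := hdec (η / 16) (by positivity)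
  obtain ⟨N, hN⟩ := exists_nat_gt (F / (η / 16))
  have hN0' : (0 : ℝ) < N := lt_of_le_of_lt (by positivity) hN
  have hN0 : 0 < N := by exact_mod_cast hN0'
  have hNF : F / N ≤ η / 16 := by
    rw [div_lt_iff₀ (by positivity)] at hN
    rw [div_le_iff₀ hN0']
    linarith
  have hpi := pi_pos
  obtain ⟨l, hl⟩ := exists_nat_gt (2 * ρ / (2 * π / κ))
  have hl0' : (0 : ℝ) < l := lt_of_le_of_lt (by positivity) hl
  set L : ℝ := l * (2 * π / κ) with hLdef
  have hL0 : 0 < L := by positivity
  have hL : 2 * ρ ≤ L := by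
    rw [div_lt_iff₀ (by positivity)] at hl
    exact hl.le
  have hlk : κ * L = l * (2 * π) := by
    rw [hLdef]; field_simp
  obtain ⟨e1, e2⟩ := cov_fav_est hg hX hf0 hF hρ (by positivity) hF0 hL0 hL hlk hN0
  have hsum : η / 16 + F / N ≤ η / 8 := by linarith
  -- the two averages
  set a' : ℝ := π / (2 * κ) with ha'
  have hka : κ * a' = π / 2 := by rw [ha']; field_simp
  set f0 := fav i L N 0 with hf0def
  set f1 := fav i L N a' with hf1def
  set V := lin X f0 with hV
  set V' := lin X f1 with hV'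
  set G : E d → (E d →₀ ℝ) := fun x =>
    Finsupp.single x 1 + ((-cos (κ * x i)) • f0 + (-sin (κ * x i)) • f1) with hG
  set Y : E d → Ω → ℝ := fun x => lin X (G x) with hY
  have hYe : ∀ x w, Y x w = X x w + -cos (κ * x i) * V w + -sin (κ * x i) * V' w := by
    intro x w
    simp only [hY, hG]
    rw [lin_add, lin_add, lin_single, lin_smul, lin_smul]
    ring
  have hXm : ∀ x, Measurable (X x) := fun x => hm.of_uncurry_left
  have hlm : ∀ b, Measurable (lin X (fav i L N b)) := by
    intro b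
    have e : lin X (fav i L N b) = fun w => ∑ m ∈ Finset.range N, (N : ℝ)⁻¹ * X (pt i L b m) w := by
      ext w; exact lin_fav i L N b w
    rw [e]
    exact Finset.measurable_fun_sum _ fun m _ => (hXm _).const_mul _
  have hXi : ∀ x, Integrable (X x) P := fun x => (hg.hasGaussianLaw_eval x).integrable
  have hlz : ∀ b, ∫ w, lin X (fav i L N b) w ∂P = 0 := by
    intro b
    simp_rw [lin_fav]
    rw [integral_finsetSum _ fun m _ => (hXi _).const_mul _]
    apply Finset.sum_eq_zero
    intro m _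
    rw [integral_const_mul, h0, mul_zero]
  have hli : ∀ b, Integrable (lin X (fav i L N b)) P := fun b =>
    ((isGaussianProcess_lin hg).hasGaussianLaw_eval _).integrable
  refine ⟨V, V', Y, (isGaussianProcess_lin hg).hasGaussianLaw_eval f0,
    (isGaussianProcess_lin hg).hasGaussianLaw_eval f1, hlm 0, hlm a', hlz 0, hlz a', ?_, ?_,
    (isGaussianProcess_lin hg).comp_right G, fun x => ?_, ?_, fun x y => ?_, fun x w => ?_⟩
  · have h := e2 0 0
    rw [sub_zero, mul_zero, cos_zero, mul_one, covariance_self (hlm 0).aemeasurable] at h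
    exact h.trans (by linarith)
  · have h := e2 a' a'
    rw [sub_self, mul_zero, cos_zero, mul_one, covariance_self (hlm a').aemeasurable] at h
    exact h.trans (by linarith)
  · simp_rw [hYe]
    have i1 : Integrable (fun w => X x w + -cos (κ * x i) * V w) P :=
      (hXi x).add ((hli 0).const_mul _)
    rw [integral_add i1 ((hli a').const_mul _), integral_add (hXi x) ((hli 0).const_mul _),
      integral_const_mul, integral_const_mul, h0, hlz 0, hlz a']
    simp
  · have e : Function.uncurry Y = fun p : E d × Ω => Function.uncurry X p +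
        -cos (κ * p.1 i) * V p.2 + -sin (κ * p.1 i) * V' p.2 := by
      ext p
      exact hYe p.1 p.2
    rw [e]
    have hc : Measurable (fun p : E d × Ω => p.1 i) := by fun_prop
    have hV1 : Measurable (fun p : E d × Ω => V p.2) := (hlm 0).comp measurable_snd
    have hV2 : Measurable (fun p : E d × Ω => V' p.2) := (hlm a').comp measurable_snd
    exact (hm.add (((measurable_cos.comp (hc.const_mul κ)).neg).mul hV1)).add
      (((measurable_sin.comp (hc.const_mul κ)).neg).mul hV2)
  · have hb := cov_bil (P := P) (-cos (κ * x i)) (-sin (κ * x i)) (-cos (κ * y i))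
      (-sin (κ * y i)) (memLp_X hg x) (memLp_lin hg f0) (memLp_lin hg f1) (memLp_X hg y)
      (memLp_lin hg f0) (memLp_lin hg f1)
    have hYx : ∀ x, Y x = fun w => X x w + -cos (κ * x i) * V w + -sin (κ * x i) * V' w := by
      intro x; ext w; exact hYe x w
    rw [hYx x, hYx y, hb, hX]
    have w1 : wave κ i (x - y) = cos (κ * x i) * cos (κ * y i) + sin (κ * x i) * sin (κ * y i) := by
      rw [wave, PiLp.sub_apply, mul_sub, cos_sub]
    have t1 := e1 0 x
    have t2 := e1 a' x
    have t3 := e1 0 y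
    have t4 := e1 a' y
    have t5 := e2 0 0
    have t6 := e2 0 a'
    have t7 := e2 a' a'
    have c1 : ∀ z : E d, cos (κ * (0 - z i)) = cos (κ * z i) := by
      intro z; rw [zero_sub, mul_neg, cos_neg]
    have c2 : ∀ z : E d, cos (κ * (a' - z i)) = sin (κ * z i) := by
      intro z; rw [mul_sub, hka, cos_pi_div_two_sub]
    rw [c1, ← hf0def, covariance_comm] at t1 t3
    rw [c2, ← hf1def, covariance_comm] at t2 t4
    rw [sub_zero, mul_zero, cos_zero, mul_one, ← hf0def] at t5
    rw [zero_sub, mul_neg, hka, cos_neg, cos_pi_div_two, mul_zero, sub_zero, ← hf0def,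
      ← hf1def] at t6
    rw [sub_self, mul_zero, cos_zero, mul_one, ← hf1def] at t7
    rw [covariance_comm (lin X f0) (X y), covariance_comm (lin X f1) (X y),
      covariance_comm (lin X f1) (lin X f0)]
    set C := cos (κ * x i) with hC
    set S := sin (κ * x i) with hS
    set C' := cos (κ * y i) with hC'
    set S' := sin (κ * y i) with hS'
    have bC : |C| ≤ 1 := abs_cos_le_one _
    have bS : |S| ≤ 1 := abs_sin_le_one _
    have bC' : |C'| ≤ 1 := abs_cos_le_one _
    have bS' : |S'| ≤ 1 := abs_sin_le_one _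
    set E1 := cov[X x, lin X f0; P] - s * C with hE1
    set E2 := cov[X x, lin X f1; P] - s * S with hE2
    set E3 := cov[X y, lin X f0; P] - s * C' with hE3
    set E4 := cov[X y, lin X f1; P] - s * S' with hE4
    set E5 := cov[lin X f0, lin X f0; P] - s with hE5
    set E6 := cov[lin X f0, lin X f1; P] with hE6
    set E7 := cov[lin X f1, lin X f1; P] - s with hE7
    have hsb : ∀ {e : ℝ}, |e| ≤ η / 16 + F / N → |e| ≤ η / 8 := fun h => h.trans hsum
    have key : f (x - y) + s * wave κ i (x - y) + -C' * cov[X x, lin X f0; P] +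
        -S' * cov[X x, lin X f1; P] +
        -C * (cov[X y, lin X f0; P] + -C' * cov[lin X f0, lin X f0; P] + -S' * E6) +
        -S * (cov[X y, lin X f1; P] + -C' * E6 + -S' * cov[lin X f1, lin X f1; P]) - f (x - y) =
        -(C' * E1) - S' * E2 - C * E3 - S * E4 + C * (C' * E5) + C * (S' * E6) + S * (C' * E6) +
          S * (S' * E7) := by
      rw [w1]
      have q1 : cov[X x, lin X f0; P] = E1 + s * C := by rw [hE1]; ring
      have q2 : cov[X x, lin X f1; P] = E2 + s * S := by rw [hE2]; ring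
      have q3 : cov[X y, lin X f0; P] = E3 + s * C' := by rw [hE3]; ring
      have q4 : cov[X y, lin X f1; P] = E4 + s * S' := by rw [hE4]; ring
      have q5 : cov[lin X f0, lin X f0; P] = E5 + s := by rw [hE5]; ring
      have q7 : cov[lin X f1, lin X f1; P] = E7 + s := by rw [hE7]; ring
      rw [q1, q2, q3, q4, q5, q7]
      ring
    rw [key]
    have r1 := abs_le.1 (abs_mul_le_one bC' (hsb t1))
    have r2 := abs_le.1 (abs_mul_le_one bS' (hsb t2))
    have r3 := abs_le.1 (abs_mul_le_one bC (hsb t3))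
    have r4 := abs_le.1 (abs_mul_le_one bS (hsb t4))
    have r5 := abs_le.1 (abs_mul_le_one bC (abs_mul_le_one bC' (hsb t5)))
    have r6 := abs_le.1 (abs_mul_le_one bC (abs_mul_le_one bS' (hsb t6)))
    have r6' := abs_le.1 (abs_mul_le_one bS (abs_mul_le_one bC' (hsb t6)))
    have r7 := abs_le.1 (abs_mul_le_one bS (abs_mul_le_one bS' (hsb t7)))
    rw [abs_le]
    constructor
    · linarith [r1.1, r1.2, r2.1, r2.2, r3.1, r3.2, r4.1, r4.2, r5.1, r6.1, r6'.1, r7.1]
    · linarith [r1.1, r1.2, r2.1, r2.2, r3.1, r3.2, r4.1, r4.2, r5.2, r6.2, r6'.2, r7.2]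
  · rw [hYe]
    ring

end Pool.Agent.Y980.ID
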